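import Mathlib
import Pool.Agent.R829.BH.Loc
import Pool.Agent.R829.BG.Num

/-!
The product formula for interpolation determinants in two variables, for pairs of points which are
close to the graph of Frobenius at many places.
-/

set_option autoImplicit false
set_option linter.unusedSectionVars false

namespace Pool.Agent.R829.BH

open NumberField Module MvPolynomial
open Pool.Agent.W238.Leh
open Pool.Agent.H627.LP hiding det_ineq det_ineq' local_gain
open Pool.Agent.H627.LR (GR)
open Pool.Agent.H420R3 (mi nv v_smul)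
open Pool.Agent.R829.BG hiding two_gain two_ineq

noncomputable section

variable {K : Type} [Field K] [NumberField K] {M : Type} [Field M] [NumberField M] [Algebra K M]
  {ι : Type} [Fintype ι] [DecidableEq ι]
variable {F : Fin (1 + 1) → MvPolynomial (Fin (1 + 1)) K} {q c a : ℕ} {A : ℝ}

/-- **the inequality** -/
theorem two_ineq (hB : Bds F q A a) (hq : 2 ≤ q) (hF : ∀ i, (F i).IsHomogeneous q)
    (hc : ∀ m, c + q ≤ m → ∀ p : MvPolynomial (Fin (1 + 1)) K, p.IsHomogeneous m →
      p ∈ Ideal.span (Set.range F)) {p p' : ι → Fin (1 + 1) → M} (hp : ∀ i, p i ≠ 0)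
    (hp' : ∀ i, p' i ≠ 0) {Q : ℕ}
    (T : Finset (FinitePlace M)) (hT : ∀ v ∈ T, GR v F q) (g : FinitePlace M → ℝ)
    (hg : ∀ v ∈ T, 0 < g v) (hpr : ∀ v ∈ T, ∀ i, Pr2 v Q (Real.exp (-g v)) (p i) (p' i))
    {H : ℝ} (hH : ∀ i, canH F q (p i) ≤ H) (hH' : ∀ i, canH F q (p' i) ≤ H) (m n s : ℕ)
    (hr1 : 1 ≤ finrank M (E2 K p p' m n)) :
    (∑ v ∈ T, g v) *
        (s * (finrank M (E2 K p p' m n) - 2 * s * (m + Q * n + 1) : ℕ)) ≤
      finrank ℚ M * (finrank M (E2 K p p' m n) * ((m + n) * H +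
        hC A a * ((c + q : ℕ) * (1 + Nat.log 2 m : ℕ)) +
        hC A a * ((c + q : ℕ) * (1 + Nat.log 2 n : ℕ)) +
        Real.log (finrank M (E2 K p p' m n)))) := by
  classical
  set r := finrank M (E2 K p p' m n) with hr
  obtain ⟨la, hl1, hl2, hl3, hl4⟩ := exists_list (c := c) hq m
  obtain ⟨lb, hm1, hm2, hm3, hm4⟩ := exists_list (c := c) hq n
  have hspan := E2_le_span (F := F) hF hc p p' la lb hl2 hm2
  rw [hl1, hm1] at hspan
  obtain ⟨φv, hφt, hφli⟩ := exists_indep (L := M) _ (Submodule.finrank_mono hspan)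
  choose φ ψ hφG hψG hφe using hφt
  obtain ⟨e, he⟩ := exists_minor φv hφli
  set P : Fin r → Fin (1 + 1) → M := fun k => p (e k) with hP
  set P' : Fin r → Fin (1 + 1) → M := fun k => p' (e k) with hP'
  have hP0 : ∀ k, P k ≠ 0 := fun k => hp _
  have hP'0 : ∀ k, P' k ≠ 0 := fun k => hp' _
  set W : Matrix (Fin r) (Fin r) M := Matrix.of fun k j => aeval (P k) (φ j) * aeval (P' k) (ψ j)
    with hW
  have hdet : W.det ≠ 0 := by
    have h1 : W = (Matrix.of fun j k => φv j (e k)).transpose := by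
      ext k j
      simp only [hW, Matrix.of_apply, Matrix.transpose_apply, hP, hP']
      rw [hφe j]
    rw [h1, Matrix.det_transpose]
    exact he
  have hiter : ∀ i j, (act F)^[j] (P i) ≠ 0 := fun i j => hB.iter_ne_zero (hP0 i) j
  have hiter' : ∀ i j, (act F)^[j] (P' i) ≠ 0 := fun i j => hB.iter_ne_zero (hP'0 i) j
  have wa : ∀ (w : InfinitePlace M) i, 0 < wt (nmi w) (act F) la (P i) :=
    fun w i => wt_pos la fun j => nmi_pos w (hiter _ j)
  have wb : ∀ (w : InfinitePlace M) i, 0 < wt (nmi w) (act F) lb (P' i) :=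
    fun w i => wt_pos lb fun j => nmi_pos w (hiter' _ j)
  have va : ∀ (v : FinitePlace M) i, 0 < wt (nmf v) (act F) la (P i) :=
    fun v i => wt_pos la fun j => nmf_pos v (hiter _ j)
  have vb : ∀ (v : FinitePlace M) i, 0 < wt (nmf v) (act F) lb (P' i) :=
    fun v i => wt_pos lb fun j => nmf_pos v (hiter' _ j)
  have hinf : ∀ w : InfinitePlace M, Real.log (w W.det) ≤
      ∑ i, (Real.log (wt (nmi w) (act F) la (P i)) + Real.log (wt (nmi w) (act F) lb (P' i))) +
        Real.log (Fintype.card (Fin r)).factorial := by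
    intro w
    have h1 : w W.det ≤ (Fintype.card (Fin r)).factorial *
        ∏ i, (wt (nmi w) (act F) la (P i) * wt (nmi w) (act F) lb (P' i)) := by
      apply det_rows_le_inf
      intro i j
      simp only [hW, Matrix.of_apply]
      rw [map_mul]
      refine mul_le_mul ?_ ?_ (by positivity) (wa w i).le
      · exact abs_le_wt (w.1.toMonoidWithZeroHom) (fun x => w.1.nonneg x)
          (fun x j => le_nmi w x j) (fun x => nmi_nonneg w x) la (hφG j) (P i)
      · exact abs_le_wt (w.1.toMonoidWithZeroHom) (fun x => w.1.nonneg x)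
          (fun x j => le_nmi w x j) (fun x => nmi_nonneg w x) lb (hψG j) (P' i)
    have h2 : 0 < w W.det := InfinitePlace.pos_iff.mpr hdet
    have h3 := Real.log_le_log h2 h1
    have h4 : (0 : ℝ) < ((Fintype.card (Fin r)).factorial : ℝ) := by
      exact_mod_cast Nat.factorial_pos _
    rw [Real.log_mul h4.ne' (Finset.prod_pos fun k _ => mul_pos (wa w k) (wb w k)).ne',
      Real.log_prod (fun k _ => (mul_pos (wa w k) (wb w k)).ne')] at h3
    have h5 : ∑ i, Real.log (wt (nmi w) (act F) la (P i) * wt (nmi w) (act F) lb (P' i)) =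
        ∑ i, (Real.log (wt (nmi w) (act F) la (P i)) + Real.log (wt (nmi w) (act F) lb (P' i))) :=
      Finset.sum_congr rfl fun i _ => Real.log_mul (wa w i).ne' (wb w i).ne'
    rw [h5] at h3
    linarith
  have hfin0 : ∀ v : FinitePlace M, ∑ i, Real.log (wt (nmf v) (act F) la (P i) *
      wt (nmf v) (act F) lb (P' i)) =
        ∑ i, (Real.log (wt (nmf v) (act F) la (P i)) + Real.log (wt (nmf v) (act F) lb (P' i))) :=
    fun v => Finset.sum_congr rfl fun i _ => Real.log_mul (va v i).ne' (vb v i).ne'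
  have hfin : ∀ v : FinitePlace M, Real.log (v W.det) ≤
      ∑ i, (Real.log (wt (nmf v) (act F) la (P i)) +
        Real.log (wt (nmf v) (act F) lb (P' i))) := by
    intro v
    have h1 : v W.det ≤ ∏ i, (wt (nmf v) (act F) la (P i) * wt (nmf v) (act F) lb (P' i)) := by
      apply det_rows_le v _ _ (fun k => (mul_pos (va v k) (vb v k)).le)
      intro i j
      simp only [hW, Matrix.of_apply]
      rw [map_mul]
      refine mul_le_mul ?_ ?_ (v_nonneg v _) (va v i).le
      · exact abs_le_wt (v.1.toMonoidWithZeroHom) (fun x => v.1.nonneg x)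
          (fun x j => le_nmf v x j) (fun x => nmf_nonneg v x) la (hφG j) (P i)
      · exact abs_le_wt (v.1.toMonoidWithZeroHom) (fun x => v.1.nonneg x)
          (fun x j => le_nmf v x j) (fun x => nmf_nonneg v x) lb (hψG j) (P' i)
    have h2 : 0 < v W.det := FinitePlace.pos_iff.mpr hdet
    have h3 := Real.log_le_log h2 h1
    rwa [Real.log_prod (fun k _ => (mul_pos (va v k) (vb v k)).ne'), hfin0] at h3
  have hfinT : ∀ v ∈ T, Real.log (v W.det) ≤
      ∑ i, (Real.log (wt (nmf v) (act F) la (P i)) + Real.log (wt (nmf v) (act F) lb (P' i))) -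
        g v * (s * (r - 2 * s * (m + Q * n + 1) : ℕ)) := by
    intro v hv
    have hR := hT v hv
    have h1 := two_gain hR hF la lb φ ψ hφG hψG P P' hP0 hP'0 (Real.exp_pos (-g v))
      (Real.exp_le_one_iff.mpr (by linarith [hg v hv])) (fun k => hpr v hv (e k)) s
    have hW1 : (Matrix.of fun i j => aeval (P i) (φ j) * aeval (P' i) (ψ j)) = W :=
      rfl
    rw [hW1, hl1, hm1, Fintype.card_fin] at h1
    have h2 : 0 < v W.det := FinitePlace.pos_iff.mpr hdet
    have h3 := Real.log_le_log h2 h1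
    have h4 : ∏ i, (nmf v (P i) ^ m * nmf v (P' i) ^ n) =
        ∏ i, (wt (nmf v) (act F) la (P i) * wt (nmf v) (act F) lb (P' i)) := by
      refine Finset.prod_congr rfl fun i _ => ?_
      rw [hR.wt_eq la (P i), hR.wt_eq lb (P' i), hl1, hm1]
    rw [h4, Real.log_mul (Finset.prod_pos fun i _ => mul_pos (va v i) (vb v i)).ne'
      (pow_pos (pow_pos (Real.exp_pos _) _) _).ne',
      Real.log_prod (fun k _ => (mul_pos (va v k) (vb v k)).ne'), hfin0, Real.log_pow,
      Real.log_pow, Real.log_exp] at h3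
    refine h3.trans (le_of_eq ?_)
    push_cast
    ring
  have hgs1 : HasGS (fun w => ∑ i, (Real.log (wt (nmi w) (act F) la (P i)) +
        Real.log (wt (nmi w) (act F) lb (P' i))))
      (fun v => ∑ i, (Real.log (wt (nmf v) (act F) la (P i)) +
        Real.log (wt (nmf v) (act F) lb (P' i)))) (∑ i, (HL F la (P i) + HL F lb (P' i))) :=
    HasGS.sum Finset.univ fun k _ => (HasGS.wt la (hiter k)).add (HasGS.wt lb (hiter' k))
  have hmain := HasGS_le_gain (HasGS.prod hdet) hgs1
    (c := Real.log (Fintype.card (Fin r)).factorial) hinf T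
    (fun v => g v * (s * (r - 2 * s * (m + Q * n + 1) : ℕ))) (fun v _ => hfin v)
    hfinT
  rw [Fintype.card_fin, ← Finset.sum_mul] at hmain
  -- the right hand side
  have hD := finrank_pos' (L := M)
  have hr' : (1 : ℝ) ≤ r := by exact_mod_cast hr1
  have hlsum : ∀ (l : List ℕ) (N : ℕ), (∀ r ∈ l, r ≤ c + q) → l.length ≤ 1 + Nat.log 2 N →
      (l.sum : ℝ) ≤ (c + q : ℕ) * (1 + Nat.log 2 N : ℕ) := by
    intro l N h3 h4
    have h5 : l.sum ≤ l.length * (c + q) := by
      have := List.sum_le_card_nsmul l (c + q) h3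
      simpa using this
    have h6 : l.length * (c + q) ≤ (c + q) * (1 + Nat.log 2 N) := by
      rw [mul_comm]
      exact Nat.mul_le_mul_left _ h4
    exact_mod_cast h5.trans h6
  have hHL : ∀ i, HL F la (P i) ≤ finrank ℚ M * (m * H +
      hC A a * ((c + q : ℕ) * (1 + Nat.log 2 m : ℕ))) := by
    intro i
    refine (hB.HL_le hq la (hP0 i)).trans ?_
    rw [hl1]
    have h3 : (m : ℝ) * canH F q (P i) ≤ m * H :=
      mul_le_mul_of_nonneg_left (hH _) (Nat.cast_nonneg _)
    have h4 : hC A a * la.sum ≤ hC A a * ((c + q : ℕ) * (1 + Nat.log 2 m : ℕ)) :=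
      mul_le_mul_of_nonneg_left (hlsum la m hl3 hl4) hB.hC_nonneg
    exact mul_le_mul_of_nonneg_left (by linarith) hD.le
  have hHL' : ∀ i, HL F lb (P' i) ≤ finrank ℚ M * (n * H +
      hC A a * ((c + q : ℕ) * (1 + Nat.log 2 n : ℕ))) := by
    intro i
    refine (hB.HL_le hq lb (hP'0 i)).trans ?_
    rw [hm1]
    have h3 : (n : ℝ) * canH F q (P' i) ≤ n * H :=
      mul_le_mul_of_nonneg_left (hH' _) (Nat.cast_nonneg _)
    have h4 : hC A a * lb.sum ≤ hC A a * ((c + q : ℕ) * (1 + Nat.log 2 n : ℕ)) :=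
      mul_le_mul_of_nonneg_left (hlsum lb n hm3 hm4) hB.hC_nonneg
    exact mul_le_mul_of_nonneg_left (by linarith) hD.le
  have hsum : ∑ i, (HL F la (P i) + HL F lb (P' i)) ≤ r * (finrank ℚ M * (m * H +
      hC A a * ((c + q : ℕ) * (1 + Nat.log 2 m : ℕ))) + finrank ℚ M * (n * H +
      hC A a * ((c + q : ℕ) * (1 + Nat.log 2 n : ℕ)))) := by
    have h7 := Finset.sum_le_sum (fun k (_ : k ∈ (Finset.univ : Finset (Fin r))) =>
      add_le_add (hHL k) (hHL' k))
    rwa [Finset.sum_const, Finset.card_univ, Fintype.card_fin, nsmul_eq_mul] at h7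
  have hfac : Real.log r.factorial ≤ r * Real.log r := by
    have h2 : (r.factorial : ℝ) ≤ (r : ℝ) ^ r := by exact_mod_cast Nat.factorial_le_pow r
    have h3 := Real.log_le_log (by exact_mod_cast Nat.factorial_pos r) h2
    rwa [Real.log_pow] at h3
  have h5 := mul_le_mul_of_nonneg_left hfac hD.le
  calc _ ≤ ∑ i, (HL F la (P i) + HL F lb (P' i)) + finrank ℚ M * Real.log r.factorial := by
        linarith
    _ ≤ r * (finrank ℚ M * (m * H + hC A a * ((c + q : ℕ) * (1 + Nat.log 2 m : ℕ))) +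
        finrank ℚ M * (n * H + hC A a * ((c + q : ℕ) * (1 + Nat.log 2 n : ℕ)))) +
        finrank ℚ M * (r * Real.log r) := by linarith
    _ = _ := by ring

end

end Pool.Agent.R829.BH
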