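import Mathlib
import Pool.Agent.R829.BH.Glo

/-!
Points satisfying a relation with their images under Frobenius lie in few residue classes.
-/

set_option autoImplicit false
set_option linter.unusedSectionVars false

namespace Pool.Agent.R829.BH

open NumberField Module
open Pool.Agent.W238.Leh
open Pool.Agent.H627.LP hiding det_ineq det_ineq' local_gain
open Pool.Agent.H627.LR (res res_spec res_eq v_neg wd wd_st exists_int)
open Pool.Agent.H627.LU (Classes)
open Pool.Agent.H420R3 (mi nv v_smul nv_pos v_lt_one_iff)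
open Pool.Agent.R829.BG hiding two_gain two_ineq classes_rel

noncomputable section

variable {M : Type} [Field M] [NumberField M] {v : FinitePlace M}

/-- **few residue classes** -/
theorem classes_rel {Q b : ℕ} (hbQ : b < Q)
    {G : Polynomial (Polynomial M)} (hG : G ≠ 0) (hdeg : G.natDegree ≤ b) (hX : XD b G)
    {ι : Type} [Fintype ι] [DecidableEq ι] (x y : ι → M) {g' : ℝ}
    (hfr : ∀ i, v (x i) ≤ 1 → v (y i) ≤ 1 ∧ v (y i - x i ^ Q) < 1)
    (hcl : ∀ i i', v (x i - x i') < 1 → v (x i - x i') ≤ Real.exp (-g'))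
    (hcl' : ∀ i i', v ((x i)⁻¹ - (x i')⁻¹) < 1 → v ((x i)⁻¹ - (x i')⁻¹) ≤ Real.exp (-g'))
    (hx : ∀ i, G.evalEval (x i) (y i) = 0) :
    Classes v (fun i => ![x i, 1]) ∅ (b * (Q + 1) + 1) g' := by
  classical
  -- the coefficient of maximal absolute value
  obtain ⟨mn, hmn, hmax⟩ := Finset.exists_max_image
    (Finset.range (b + 1) ×ˢ Finset.range (b + 1)) (fun mn => v ((G.coeff mn.2).coeff mn.1))
    ⟨(0, 0), by simp⟩
  obtain ⟨m₀, n₀⟩ := mn
  simp only [Finset.mem_product, Finset.mem_range] at hmn
  obtain ⟨hm₀, hn₀⟩ := hmn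
  set g₀ := (G.coeff n₀).coeff m₀ with hg₀
  have hout : ∀ m n, ¬ (m < b + 1 ∧ n < b + 1) → (G.coeff n).coeff m = 0 := by
    intro m n h
    by_cases hn : n < b + 1
    · have hm : b < m := by
        by_contra hcon
        exact h ⟨by omega, hn⟩
      exact Polynomial.coeff_eq_zero_of_natDegree_lt (lt_of_le_of_lt (hX n) hm)
    · rw [Polynomial.coeff_eq_zero_of_natDegree_lt (lt_of_le_of_lt hdeg (by omega)),
        Polynomial.coeff_zero]
  have hle : ∀ m n, v ((G.coeff n).coeff m) ≤ v g₀ := by
    intro m n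
    by_cases h : m < b + 1 ∧ n < b + 1
    · exact hmax (m, n) (by simp [h.1, h.2])
    · rw [hout m n h, map_zero]
      exact v_nonneg v _
  have hg₀0 : g₀ ≠ 0 := by
    intro h0
    apply hG
    ext n m
    have h1 := hle m n
    rw [h0, map_zero] at h1
    have h2 : v ((G.coeff n).coeff m) = 0 := le_antisymm h1 (v_nonneg v _)
    simpa using h2
  have hvg₀ : 0 < v g₀ := FinitePlace.pos_iff.mpr hg₀0
  set g : ℕ → ℕ → M := fun m n => (G.coeff n).coeff m / g₀ with hg
  have hg1 : ∀ m n, v (g m n) ≤ 1 := by
    intro m n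
    simp only [hg]
    rw [map_div₀, div_le_one hvg₀]
    exact hle m n
  choose c hc using fun m n => exists_int v (hg1 m n)
  have hc1 : ∀ m n, v (c m n : M) ≤ 1 := fun m n => H420R3.v_le_one v _
  let : Field (𝓞 M ⧸ mi v) := Ideal.Quotient.field (mi v)
  set H : Polynomial (𝓞 M ⧸ mi v) := ∑ n ∈ Finset.range (b + 1), ∑ m ∈ Finset.range (b + 1),
    Polynomial.C (Ideal.Quotient.mk (mi v) (c m n)) * Polynomial.X ^ (m + Q * n) with hH
  have hHdeg : H.natDegree ≤ b * (Q + 1) := by
    refine Polynomial.natDegree_sum_le_of_forall_le _ _ fun n hn => ?_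
    refine Polynomial.natDegree_sum_le_of_forall_le _ _ fun m hm => ?_
    refine (Polynomial.natDegree_C_mul_X_pow_le _ _).trans ?_
    have h1 : n ≤ b := Nat.lt_succ_iff.mp (Finset.mem_range.mp hn)
    have h2 : m ≤ b := Nat.lt_succ_iff.mp (Finset.mem_range.mp hm)
    have h3 := Nat.mul_le_mul_left Q h1
    calc m + Q * n ≤ b + Q * b := Nat.add_le_add h2 h3
      _ = b * (Q + 1) := by ring
  have hH0 : H ≠ 0 := by
    intro h0
    have h1 : H.coeff (m₀ + Q * n₀) = Ideal.Quotient.mk (mi v) (c m₀ n₀) := by
      rw [hH, Polynomial.finsetSum_coeff, Finset.sum_eq_single n₀]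
      · rw [Polynomial.finsetSum_coeff, Finset.sum_eq_single m₀]
        · rw [Polynomial.coeff_C_mul_X_pow, if_pos rfl]
        · intro m hm hne
          rw [Polynomial.coeff_C_mul_X_pow, if_neg]
          intro h
          apply hne
          omega
        · intro h
          exact absurd (Finset.mem_range.mpr hm₀) h
      · intro n hn hne
        rw [Polynomial.finsetSum_coeff]
        refine Finset.sum_eq_zero fun m hm => ?_
        rw [Polynomial.coeff_C_mul_X_pow, if_neg]
        intro h
        have h2 : m ≤ b := Nat.lt_succ_iff.mp (Finset.mem_range.mp hm)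
        apply hne
        have h3 : (m + Q * n) / Q = n := by
          rw [Nat.add_mul_div_left _ _ (by omega), Nat.div_eq_of_lt (by omega), zero_add]
        have h4 : (m₀ + Q * n₀) / Q = n₀ := by
          rw [Nat.add_mul_div_left _ _ (by omega), Nat.div_eq_of_lt (by omega), zero_add]
        rw [← h3, ← h4, h]
      · intro h
        exact absurd (Finset.mem_range.mpr hn₀) h
    rw [h0, Polynomial.coeff_zero] at h1
    have h2 : c m₀ n₀ ∈ mi v := Ideal.Quotient.eq_zero_iff_mem.mp h1.symm
    rw [← v_lt_one_iff] at h2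
    have h3 := hc m₀ n₀
    have h4 : g m₀ n₀ = 1 := div_self hg₀0
    rw [h4] at h3
    have h5 : v (1 : M) < 1 := by
      have h6 : (1 : M) = (1 - (c m₀ n₀ : M)) + (c m₀ n₀ : M) := by ring
      rw [h6]
      exact lt_of_le_of_lt (FinitePlace.add_le v _ _) (max_lt h3 h2)
    rw [map_one] at h5
    exact lt_irrefl _ h5
  refine ⟨Option (𝓞 M ⧸ mi v), fun i => if v (x i) ≤ 1 then some (res v (x i)) else none,
    insert none (H.roots.toFinset.image some), ?_, ?_, ?_⟩
  · refine (Finset.card_insert_le _ _).trans ?_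
    have h1 := (Finset.card_image_le (s := H.roots.toFinset) (f := some)).trans
      ((Multiset.toFinset_card_le _).trans ((Polynomial.card_roots' H).trans hHdeg))
    omega
  · intro i _
    change (if v (x i) ≤ 1 then some (res v (x i)) else none) ∈ _
    by_cases hi : v (x i) ≤ 1
    · rw [if_pos hi]
      apply Finset.mem_insert_of_mem
      apply Finset.mem_image_of_mem
      rw [Multiset.mem_toFinset, Polynomial.mem_roots hH0, Polynomial.IsRoot]
      obtain ⟨z, hz, hz'⟩ := res_spec v hi
      rw [hz']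
      have h1 : H.eval (Ideal.Quotient.mk (mi v) z) = Ideal.Quotient.mk (mi v)
          (∑ n ∈ Finset.range (b + 1), ∑ m ∈ Finset.range (b + 1), c m n * z ^ (m + Q * n)) := by
        rw [hH, Polynomial.eval_finsetSum, map_sum]
        refine Finset.sum_congr rfl fun n _ => ?_
        rw [Polynomial.eval_finsetSum, map_sum]
        refine Finset.sum_congr rfl fun m _ => ?_
        rw [Polynomial.eval_mul, Polynomial.eval_C, Polynomial.eval_pow, Polynomial.eval_X,
          map_mul, map_pow]
      rw [h1, Ideal.Quotient.eq_zero_iff_mem, ← v_lt_one_iff]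
      have hz1 : v (z : M) ≤ 1 := H420R3.v_le_one v _
      have hy1 : v (y i) ≤ 1 := (hfr i hi).1
      have h2 : ∑ n ∈ Finset.range (b + 1), ∑ m ∈ Finset.range (b + 1),
          g m n * (x i ^ m * (y i) ^ n) = 0 := by
        have h3 := hx i
        rw [evalEval_eq hdeg hX] at h3
        have h4 : ∑ n ∈ Finset.range (b + 1), ∑ m ∈ Finset.range (b + 1),
            g m n * (x i ^ m * (y i) ^ n) = (∑ n ∈ Finset.range (b + 1),
            (∑ m ∈ Finset.range (b + 1), (G.coeff n).coeff m * x i ^ m) * (y i) ^ n) / g₀ := by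
          rw [Finset.sum_div]
          refine Finset.sum_congr rfl fun n _ => ?_
          rw [Finset.sum_mul, Finset.sum_div]
          refine Finset.sum_congr rfl fun m _ => ?_
          simp only [hg]
          ring
        rw [h4, h3, zero_div]
      have h5 : ((∑ n ∈ Finset.range (b + 1), ∑ m ∈ Finset.range (b + 1),
          c m n * z ^ (m + Q * n) : 𝓞 M) : M) = -∑ n ∈ Finset.range (b + 1),
          ∑ m ∈ Finset.range (b + 1), (g m n * (x i ^ m * (y i) ^ n) -
            (c m n : M) * ((z : M) ^ m * ((z : M) ^ Q) ^ n)) := by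
        have h6 : ∑ n ∈ Finset.range (b + 1), ∑ m ∈ Finset.range (b + 1),
            (g m n * (x i ^ m * (y i) ^ n) - (c m n : M) * ((z : M) ^ m * ((z : M) ^ Q) ^ n)) =
            ∑ n ∈ Finset.range (b + 1), ∑ m ∈ Finset.range (b + 1),
              g m n * (x i ^ m * (y i) ^ n) - ∑ n ∈ Finset.range (b + 1),
              ∑ m ∈ Finset.range (b + 1), (c m n : M) * ((z : M) ^ m * ((z : M) ^ Q) ^ n) := by
          rw [← Finset.sum_sub_distrib]
          exact Finset.sum_congr rfl fun n _ => by rw [← Finset.sum_sub_distrib]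
        rw [h6, h2, zero_sub, neg_neg]
        push_cast
        refine Finset.sum_congr rfl fun n _ => Finset.sum_congr rfl fun m _ => ?_
        rw [← pow_mul, ← pow_add]
      rw [h5, v_neg]
      refine v_sum_lt _ _ fun n _ => v_sum_lt _ _ fun m _ => ?_
      have hyz : v (y i - (z : M) ^ Q) < 1 := by
        have h7 : y i - (z : M) ^ Q = (y i - x i ^ Q) + (x i ^ Q - (z : M) ^ Q) := by ring
        rw [h7]
        exact lt_of_le_of_lt (FinitePlace.add_le v _ _)
          (max_lt (hfr i hi).2 (pow_close hi hz1 hz Q))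
      refine mul_close (hc1 m n) ?_ (hc m n) (mul_close (pow_le_one_v hz1 m)
        (pow_le_one_v hy1 n) (pow_close hi hz1 hz m)
        (pow_close hy1 (pow_le_one_v hz1 Q) hyz n))
      rw [map_mul]
      exact mul_le_one₀ (pow_le_one_v hi m) (v_nonneg v _) (pow_le_one_v hy1 n)
    · rw [if_neg hi]
      exact Finset.mem_insert_self _ _
  · intro i i' _ _ hκ
    have hηpos : 0 < Real.exp (-g') := Real.exp_pos _
    intro s t
    refine (wd_st (![x i, 1]) (![x i', 1]) s t).trans ?_
    have hwd : wd ![x i, 1] ![x i', 1] = x i - x i' := by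
      simp [wd]
    rw [hwd]
    have hn : ∀ j, v (x j) ≤ nmf v ![x j, 1] := fun j => le_nmf v ![x j, 1] 0
    have hn1 : ∀ j, 1 ≤ nmf v ![x j, 1] := fun j => by
      have h1 := le_nmf v ![x j, 1] 1
      simpa using h1
    by_cases hi : v (x i) ≤ 1
    · by_cases hi' : v (x i') ≤ 1
      · simp only [if_pos hi, if_pos hi', Option.some.injEq] at hκ
        have h1 := hcl i i' (res_eq v hi hi' hκ)
        refine h1.trans ?_
        have h2 : 1 ≤ nmf v ![x i, 1] * nmf v ![x i', 1] := one_le_mul_of_one_le_of_one_le (hn1 i)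
          (hn1 i')
        exact le_mul_of_one_le_right hηpos.le h2
      · simp [if_pos hi, if_neg hi'] at hκ
    · by_cases hi' : v (x i') ≤ 1
      · simp [if_neg hi, if_pos hi'] at hκ
      · push Not at hi hi'
        have hx0 : x i ≠ 0 := by
          intro h0
          rw [h0, map_zero] at hi
          linarith
        have hx0' : x i' ≠ 0 := by
          intro h0
          rw [h0, map_zero] at hi'
          linarith
        have h1 : x i - x i' = (x i * x i') * ((x i')⁻¹ - (x i)⁻¹) := by
          field_simp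
        have h2 : v ((x i')⁻¹ - (x i)⁻¹) < 1 := by
          refine lt_of_le_of_lt (v_sub_le v _ _) (max_lt ?_ ?_)
          · rw [map_inv₀]
            exact inv_lt_one_of_one_lt₀ hi'
          · rw [map_inv₀]
            exact inv_lt_one_of_one_lt₀ hi
        have h3 := hcl' i' i h2
        rw [h1, map_mul, map_mul, mul_comm]
        refine mul_le_mul h3 (mul_le_mul (hn i) (hn i') (v_nonneg v _) (nmf_nonneg v _)) ?_
          hηpos.le
        exact mul_nonneg (v_nonneg v _) (v_nonneg v _)

end

end Pool.Agent.R829.BH
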