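import Mathlib
import Pool.Agent.R829.BH.Cls
import Pool.Agent.R829.BG.Orbs

/-!
Numerical consequences of the two inequalities.
-/

set_option autoImplicit false
set_option linter.unusedSectionVars false

namespace Pool.Agent.R829.BH

open NumberField Module Filter Topology
open Pool.Agent.W238.Leh
open Pool.Agent.H627.LP hiding det_ineq det_ineq' local_gain
open Pool.Agent.H627.LR (GR)
open Pool.Agent.H627.LU (Classes)
open Pool.Agent.H420R3 (mi nv v_smul nv_pos v_lt_one_iff log_nv_pos)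
open Pool.Agent.R829.BG hiding two_gain two_ineq classes_rel step_zero step_last core

noncomputable section

variable {K : Type} [Field K] [NumberField K] {M : Type} [Field M] [NumberField M] [Algebra K M]
  {ι : Type} [Fintype ι] [DecidableEq ι]
variable {F : Fin (1 + 1) → MvPolynomial (Fin (1 + 1)) K} {q c a : ℕ} {A : ℝ}

/-- **the first step**: there is a relation -/
theorem step_zero (hB : Bds F q A a) (hq : 2 ≤ q) (hF : ∀ i, (F i).IsHomogeneous q)
    (hc : ∀ m, c + q ≤ m → ∀ p : MvPolynomial (Fin (1 + 1)) K, p.IsHomogeneous m →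
      p ∈ Ideal.span (Set.range F)) {Q s : ℕ}
    (T : Finset (FinitePlace M)) (hT : ∀ v ∈ T, GR v F q) (g : FinitePlace M → ℝ)
    (hg : ∀ v ∈ T, 0 < g v)
    {ω : ℝ} (hω : (finrank ℚ M : ℝ) * ω ≤ ∑ v ∈ T, g v) (hω0 : 0 < ω)
    {H : ℝ} (x y : ι → M)
    (hpr : ∀ v ∈ T, ∀ i, Pr2 v Q (Real.exp (-g v)) (![x i, 1]) (![y i, 1]))
    (hH : ∀ i, canH F q ![x i, 1] ≤ H) (hH' : ∀ i, canH F q ![y i, 1] ≤ H)
    (hH1 : ((Q * (8 * s) : ℕ) + (8 * s : ℕ)) * H ≤ 1)
    (hs : 1 + hC A a * (c + q : ℕ) * (1 + Nat.log 2 (Q * (8 * s)) : ℕ) +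
      hC A a * (c + q : ℕ) * (1 + Nat.log 2 (8 * s) : ℕ) +
        Real.log (((Q * (8 * s) + 1) * (8 * s + 1) : ℕ)) < s * ω / 2) :
    ∃ G : Polynomial (Polynomial M), G ≠ 0 ∧ G.natDegree ≤ 8 * s ∧ XD (Q * (8 * s)) G ∧
      ∀ i, G.evalEval (x i) (y i) = 0 := by
  obtain ⟨b, hb⟩ : ∃ b, b = 8 * s := ⟨_, rfl⟩
  obtain ⟨α, hα⟩ : ∃ α, α = Q * (8 * s) := ⟨_, rfl⟩
  rw [← hα, ← hb]
  apply exists_rel (K := K) (ι := ι)
  by_contra hcon
  push Not at hcon
  have hp : ∀ i : ι, (![x i, 1] : Fin (1 + 1) → M) ≠ 0 := by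
    intro i h0
    have := congrFun h0 1
    simp at this
  have hp' : ∀ i : ι, (![y i, 1] : Fin (1 + 1) → M) ≠ 0 := by
    intro i h0
    have := congrFun h0 1
    simp at this
  have hr : finrank M (E2 K (fun i => ![x i, 1]) (fun i => ![y i, 1]) α b) =
      (α + 1) * (b + 1) := le_antisymm (finrank_E2_le _ _ _ _) hcon
  have hmain := two_ineq hB hq hF hc hp hp' (Q := Q) T hT g hg hpr hH hH' α b s
  rw [hr] at hmain
  have h1 := hmain (by
    have : 0 < (α + 1) * (b + 1) := by positivity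
    omega)
  obtain ⟨r, hrdef⟩ : ∃ r, r = (α + 1) * (b + 1) := ⟨_, rfl⟩
  rw [← hα, ← hb, ← hrdef] at hs
  rw [← hrdef] at h1
  rw [← hα, ← hb] at hH1
  have h2 : r ≤ 2 * (r - 2 * s * (α + Q * b + 1)) := by
    have h3 : 2 * (2 * s * (α + Q * b + 1)) ≤ r := by
      rw [hrdef, hα, hb]
      nlinarith [Nat.zero_le (Q * s), Nat.zero_le s, Nat.zero_le (Q * s * s)]
    omega
  have h2' : (r : ℝ) ≤ 2 * ((r - 2 * s * (α + Q * b + 1) : ℕ) : ℝ) := by exact_mod_cast h2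
  have hr0 : (0 : ℝ) < r := by
    have : 0 < r := by
      rw [hrdef]
      positivity
    exact_mod_cast this
  have hD := finrank_pos' (L := M)
  have h4 : (finrank ℚ M : ℝ) * (r * (s * ω / 2)) ≤ (∑ v ∈ T, g v) *
      (s * ((r - 2 * s * (α + Q * b + 1) : ℕ) : ℝ)) := by
    have hs0 : (0 : ℝ) ≤ s := Nat.cast_nonneg _
    calc (finrank ℚ M : ℝ) * (r * (s * ω / 2)) = (finrank ℚ M : ℝ) * ω * (s * (r / 2)) := by ring
      _ ≤ (∑ v ∈ T, g v) * (s * ((r - 2 * s * (α + Q * b + 1) : ℕ) : ℝ)) := by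
        apply mul_le_mul hω
        · apply mul_le_mul_of_nonneg_left _ hs0
          linarith
        · positivity
        · exact (mul_pos hD hω0).le.trans hω
  have h5 := h4.trans h1
  have h6 := le_of_mul_le_mul_left h5 hD
  have h7 := le_of_mul_le_mul_left h6 hr0
  have h8 : (s : ℝ) * ω / 2 ≤ 1 + hC A a * (c + q : ℕ) * (1 + Nat.log 2 α : ℕ) +
      hC A a * (c + q : ℕ) * (1 + Nat.log 2 b : ℕ) + Real.log r := by
    refine h7.trans ?_
    have h9 : hC A a * (((c + q : ℕ) : ℝ) * ((1 + Nat.log 2 α : ℕ) : ℝ)) =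
        hC A a * ((c + q : ℕ) : ℝ) * ((1 + Nat.log 2 α : ℕ) : ℝ) := by ring
    have h10 : hC A a * (((c + q : ℕ) : ℝ) * ((1 + Nat.log 2 b : ℕ) : ℝ)) =
        hC A a * ((c + q : ℕ) : ℝ) * ((1 + Nat.log 2 b : ℕ) : ℝ) := by ring
    rw [h9, h10]
    linarith
  linarith

/-- **the last step**: a long window of small points in few residue classes does not exist -/
theorem step_last (hB : Bds F q A a) (hq : 2 ≤ q) (hF : ∀ i, (F i).IsHomogeneous q)
    (hc : ∀ m, c + q ≤ m → ∀ p : MvPolynomial (Fin (1 + 1)) K, p.IsHomogeneous m →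
      p ∈ Ideal.span (Set.range F))
    (T : Finset (FinitePlace M)) (hT : ∀ v ∈ T, GR v F q) (g : FinitePlace M → ℝ)
    (hg : ∀ v ∈ T, 0 < g v)
    {ω : ℝ} (hω : (finrank ℚ M : ℝ) * ω ≤ ∑ v ∈ T, g v) (hω0 : 0 < ω)
    {H : ℝ} (x : ι → M) (hinj : Function.Injective x) (hH : ∀ i, canH F q ![x i, 1] ≤ H)
    {t : ℕ} (ht : 1 ≤ t) (hH0 : 0 ≤ H) (hH1 : 32 * t * H ≤ ω)
    (hcl : ∀ v ∈ T, Classes v (fun i => ![x i, 1]) ∅ t (g v))
    (hι : 8 * t ≤ Fintype.card ι)
    (hs : hC A a * (c + q : ℕ) * (1 + Nat.log 2 (Fintype.card ι) : ℕ) +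
      Real.log (Fintype.card ι) < ω / (32 * t) * Fintype.card ι) : False := by
  obtain ⟨r, hr⟩ : ∃ r, r = Fintype.card ι := ⟨_, rfl⟩
  rw [← hr] at hι hs
  have hr1 : 1 ≤ r := by omega
  have hp : ∀ i : ι, (![x i, 1] : Fin (1 + 1) → M) ≠ 0 := by
    intro i h0
    have := congrFun h0 1
    simp at this
  have hp1 : ∀ i : ι, (![x i, 1] : Fin (1 + 1) → M) 1 = 1 := fun i => rfl
  have hinj' : Function.Injective (fun i : ι => (![x i, 1] : Fin (1 + 1) → M)) := by
    intro i j hij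
    apply hinj
    exact congrFun hij 0
  have hfr : finrank M (EL K (fun i : ι => (![x i, 1] : Fin (1 + 1) → M)) (r - 1)) = r := by
    have h1 := (Pool.Agent.R829.DL.growth_line (K := K) hp1 hinj' (m := r - 1) (by omega)).1
    omega
  obtain ⟨s, hsdef⟩ : ∃ s, s = r / (4 * t) := ⟨_, rfl⟩
  have hfs : finrank M (EL K (fun i : ι => (![x i, 1] : Fin (1 + 1) → M)) (1 * s)) ≤ s + 1 := by
    have := finrank_EL_le (K := K) hp1 (1 * s)
    rw [pow_one, one_mul] at this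
    rw [one_mul]
    exact this
  have hmain := Pool.Agent.H627.LU.hilb_ineq hB hq hF hc hp T hT g
    hg (fun _ => ∅) (t := t) hcl (w₀ := ∑ v ∈ T, g v)
    (fun i => by simp) hH (r - 1) s (by rw [hfr]; omega)
  rw [hfr] at hmain
  -- the parameter
  have h1 : s * (4 * t) ≤ r := hsdef ▸ Nat.div_mul_le_self r (4 * t)
  have h2 : r < (s + 1) * (4 * t) := by
    rw [hsdef]
    have := Nat.lt_div_mul_add (a := r) (b := 4 * t) (by omega)
    calc r < r / (4 * t) * (4 * t) + 4 * t := this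
      _ = _ := by ring
  have hs1 : 1 ≤ s := by
    rw [hsdef, Nat.le_div_iff_mul_le (by omega)]
    omega
  have h3 : r ≤ 8 * t * s := by
    have : (s + 1) * (4 * t) ≤ (2 * s) * (4 * t) := Nat.mul_le_mul_right _ (by omega)
    calc r ≤ (2 * s) * (4 * t) := by omega
      _ = 8 * t * s := by ring
  have h4 : 2 * (t * (s + 1)) ≤ r := by
    have : 2 * (t * (s + 1)) ≤ s * (4 * t) := by nlinarith
    omega
  have hr0 : (0 : ℝ) < r := by exact_mod_cast hr1
  have ht0 : (0 : ℝ) < t := by exact_mod_cast ht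
  have hs0 : (0 : ℝ) < s := by exact_mod_cast hs1
  have hD := finrank_pos' (L := M)
  obtain ⟨W, hW⟩ : ∃ W, W = ∑ v ∈ T, g v := ⟨_, rfl⟩
  rw [← hW] at hmain hω
  have hW0 : 0 < W := lt_of_lt_of_le (mul_pos hD hω0) hω
  have h4' : 2 * ((t : ℝ) * (s + 1)) ≤ r := by exact_mod_cast h4
  have h3' : (r : ℝ) ≤ 8 * t * s := by exact_mod_cast h3
  have hfs' : ((finrank M (EL K (fun i : ι => (![x i, 1] : Fin (1 + 1) → M)) (1 * s)) : ℕ) : ℝ) ≤
      s + 1 := by exact_mod_cast hfs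
  have h5 : (s : ℝ) * (W * (r / 2)) ≤ s * (r * W - W * (t * (finrank M (EL K (fun i : ι =>
      (![x i, 1] : Fin (1 + 1) → M)) (1 * s)) : ℕ))) := by
    apply mul_le_mul_of_nonneg_left _ hs0.le
    have h6 : (t : ℝ) * (finrank M (EL K (fun i : ι =>
      (![x i, 1] : Fin (1 + 1) → M)) (1 * s)) : ℕ) ≤ r / 2 := by
      have := mul_le_mul_of_nonneg_left hfs' ht0.le
      linarith
    have h7 := mul_le_mul_of_nonneg_left h6 hW0.le
    linarith
  have h6 : (finrank ℚ M : ℝ) * (r * (s * ω / 2)) ≤ s * (W * (r / 2)) := by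
    have h7 := mul_le_mul_of_nonneg_right hω (mul_nonneg hs0.le hr0.le)
    nlinarith
  have h7 := h6.trans (h5.trans hmain)
  have h8 := le_of_mul_le_mul_left h7 hD
  have h9 := le_of_mul_le_mul_left h8 hr0
  have h10 : (Nat.log 2 (r - 1) : ℝ) ≤ Nat.log 2 r := by
    exact_mod_cast Nat.log_mono_right (by omega)
  have hE : 0 ≤ hC A a * ((c + q : ℕ) : ℝ) := mul_nonneg hB.hC_nonneg (Nat.cast_nonneg _)
  have h11 : hC A a * (((c + q : ℕ) : ℝ) * ((1 + Nat.log 2 (r - 1) : ℕ) : ℝ)) ≤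
      hC A a * (c + q : ℕ) * (1 + Nat.log 2 r : ℕ) := by
    rw [← mul_assoc]
    apply mul_le_mul_of_nonneg_left _ hE
    push_cast
    linarith
  have h12 : ((r - 1 : ℕ) : ℝ) * H ≤ r * H := by
    apply mul_le_mul_of_nonneg_right _ hH0
    exact_mod_cast Nat.sub_le _ _
  have h13 : r * H ≤ ω / (32 * t) * r := by
    have : H ≤ ω / (32 * t) := by
      rw [le_div_iff₀ (by positivity)]
      linarith
    rw [mul_comm]
    exact mul_le_mul_of_nonneg_right this hr0.le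
  have h14 : ω / (16 * t) * r ≤ s * ω / 2 := by
    rw [div_mul_eq_mul_div, div_le_iff₀ (by positivity)]
    have := mul_le_mul_of_nonneg_left h3' hω0.le
    nlinarith
  have h15 : ω / (16 * t) * r = ω / (32 * t) * r + ω / (32 * t) * r := by
    field_simp
    norm_num
  linarith

end

end Pool.Agent.R829.BH
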