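import Mathlib
import Pool.Agent.R829.BH.Num

/-!
The lower bound for canonical heights, for points over a field with two embeddings.
-/

set_option autoImplicit false
set_option linter.unusedSectionVars false

namespace Pool.Agent.R829.BH

open NumberField Module Filter Topology
open Pool.Agent.W238.Leh
open Pool.Agent.H627.LP hiding det_ineq det_ineq' local_gain
open Pool.Agent.H627.LR (GR)
open Pool.Agent.H627.LU (Classes)
open Pool.Agent.H420R3 (mi nv v_smul nv_pos v_lt_one_iff log_nv_pos)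
open Pool.Agent.R829.BG hiding two_gain two_ineq classes_rel step_zero step_last core step_of
  exists_orb
open Pool.Agent.R829.DL (canH_hom logHeight_hom)

noncomputable section

variable {K : Type} [Field K] [NumberField K] {L : Type} [Field L] [NumberField L] [Algebra K L]
variable {M : Type} [Field M] [NumberField M] [Algebra K M]
variable {F : Fin (1 + 1) → MvPolynomial (Fin (1 + 1)) K} {q c a : ℕ} {A : ℝ}

/-- the second embedding is the power `Q` of the first one modulo the place -/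
structure Fr (v : FinitePlace M) (ι θ : L →ₐ[K] M) (Q : ℕ) (g : ℝ) : Prop where
  fr : ∀ z : L, v (ι z) ≤ 1 → v (θ z) ≤ 1 ∧ v (θ z - ι z ^ Q) ≤ Real.exp (-g)
  sm : ∀ z : L, v (ι z) < 1 → v (ι z) ≤ Real.exp (-g)

lemma map_vec (φ : L →ₐ[K] M) (z : L) :
    (fun t => φ ((![z, 1] : Fin (1 + 1) → L) t)) = ![φ z, 1] := by
  funext t
  fin_cases t
  · rfl
  · exact map_one φ

lemma nmf_le_one {v : FinitePlace M} {z : M} (hz : v z ≤ 1) :
    nmf v (![z, 1] : Fin (1 + 1) → M) = 1 := by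
  apply le_antisymm
  · refine nmf_le fun t => ?_
    fin_cases t
    · exact hz
    · change v (1 : M) ≤ 1
      rw [map_one]
  · have := le_nmf v (![z, 1] : Fin (1 + 1) → M) 1
    simpa using this

lemma nmf_one_le {v : FinitePlace M} {z : M} (hz : 1 ≤ v z) :
    nmf v (![z, 1] : Fin (1 + 1) → M) = v z := by
  apply le_antisymm
  · refine nmf_le fun t => ?_
    fin_cases t
    · exact le_rfl
    · change v (1 : M) ≤ _
      rw [map_one]
      exact hz
  · exact le_nmf v (![z, 1] : Fin (1 + 1) → M) 0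

lemma Fr.pr2 {v : FinitePlace M} {ι θ : L →ₐ[K] M} {Q : ℕ} {g : ℝ} (h : Fr v ι θ Q g) (z : L) :
    Pr2 v Q (Real.exp (-g)) (![ι z, 1]) (![θ z, 1]) := by
  rcases le_or_gt (v (ι z)) 1 with hz | hz
  · obtain ⟨h1, h2⟩ := h.fr z hz
    refine ⟨1, ?_, ?_, ?_⟩
    · rw [nmf_le_one hz]
      exact map_one v
    · rw [nmf_le_one h1]
      exact map_one v
    · change v ((1 : M)⁻¹ * θ z - ((1 : M)⁻¹ * ι z) ^ Q) ≤ _
      rw [inv_one, one_mul, one_mul]
      exact h2
  · have hz' : v (ι z⁻¹) ≤ 1 := by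
      rw [map_inv₀, map_inv₀]
      exact (inv_lt_one_of_one_lt₀ hz).le
    obtain ⟨h1, h2⟩ := h.fr z⁻¹ hz'
    have hz0 : z ≠ 0 := by
      rintro rfl
      rw [map_zero, map_zero] at hz
      linarith
    have hθ0 : 0 < v (θ z) := FinitePlace.pos_iff.mpr ((map_ne_zero θ).mpr hz0)
    have h3 : 1 ≤ v (θ z) := by
      rw [map_inv₀, map_inv₀] at h1
      exact (inv_le_one₀ hθ0).mp h1
    refine ⟨0, ?_, ?_, ?_⟩
    · rw [nmf_one_le hz.le]
      rfl
    · rw [nmf_one_le h3]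
      rfl
    · change v ((θ z)⁻¹ * 1 - ((ι z)⁻¹ * 1) ^ Q) ≤ _
      rw [mul_one, mul_one, ← map_inv₀, ← map_inv₀]
      exact h2

lemma canH_vec (φ : L →ₐ[K] M) (z : L) :
    canH F q (![φ z, 1] : Fin (1 + 1) → M) = canH F q (![z, 1] : Fin (1 + 1) → L) := by
  rw [← canH_hom φ F q (![z, 1] : Fin (1 + 1) → L), map_vec]

lemma aeval_vec (φ : L →ₐ[K] M) (z : L) (p : MvPolynomial (Fin (1 + 1)) K) :
    MvPolynomial.aeval (![φ z, 1] : Fin (1 + 1) → M) p =
      φ (MvPolynomial.aeval (![z, 1] : Fin (1 + 1) → L) p) := by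
  rw [← map_vec]
  exact (MvPolynomial.comp_aeval_apply _ φ p).symm

lemma step_of {k D : ℕ} {H : Fin (1 + 1) → MvPolynomial (Fin (1 + 1)) K}
    (hH : ∀ i, (H i).IsHomogeneous k) (hk : k ≤ D) {j : ℕ} {x : Fin (1 + 1) → L}
    (hj : ∀ i, act H ((act F)^[i] x) = (act F)^[i + j] x) (ι θ : L →ₐ[K] M) :
    ∃ f g : Polynomial M, f.natDegree ≤ D ∧ g.natDegree ≤ D ∧
      ∀ i ∈ JJ F x, i + j ∈ JJ F x → g.eval (ι (ax F x i)) ≠ 0 ∧ g.eval (θ (ax F x i)) ≠ 0 ∧
        ι (ax F x (i + j)) = f.eval (ι (ax F x i)) / g.eval (ι (ax F x i)) ∧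
        θ (ax F x (i + j)) = f.eval (θ (ax F x i)) / g.eval (θ (ax F x i)) := by
  refine ⟨dh 1 (MvPolynomial.map (algebraMap K M) (H 0)),
    dh 1 (MvPolynomial.map (algebraMap K M) (H 1)), (dh_natDegree 1 ((hH 0).map _)).trans hk,
    (dh_natDegree 1 ((hH 1).map _)).trans hk, fun i hi hij => ?_⟩
  have hi' : ((act F)^[i] x) 1 ≠ 0 := hi
  have hij' : ((act F)^[i + j] x) 1 ≠ 0 := hij
  have h1 : ∀ t, MvPolynomial.aeval (![ax F x i, 1] : Fin (1 + 1) → L) (H t) =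
      ((((act F)^[i] x) 1)⁻¹) ^ k * ((act F)^[i + j] x) t := by
    intro t
    rw [ax_vec hi]
    have h2 := congrFun (act_smul hH ((((act F)^[i] x) 1)⁻¹) ((act F)^[i] x)) t
    rw [hj] at h2
    exact h2
  have hpow : ((((act F)^[i] x) 1)⁻¹) ^ k ≠ 0 := pow_ne_zero _ (inv_ne_zero hi')
  have hne : MvPolynomial.aeval (![ax F x i, 1] : Fin (1 + 1) → L) (H 1) ≠ 0 := by
    rw [h1]
    exact mul_ne_zero hpow hij'
  have hax : ax F x (i + j) = MvPolynomial.aeval (![ax F x i, 1] : Fin (1 + 1) → L) (H 0) /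
      MvPolynomial.aeval (![ax F x i, 1] : Fin (1 + 1) → L) (H 1) := by
    rw [h1, h1, mul_div_mul_left _ _ hpow]
    rfl
  simp only [eval_dh, aeval_vec]
  refine ⟨(map_ne_zero ι).mpr hne, (map_ne_zero θ).mpr hne, ?_, ?_⟩
  · rw [hax, map_div₀]
  · rw [hax, map_div₀]

/-- the structure on the orbit of a wandering point -/
lemma exists_orb (hB : Bds F q A a) (hF : ∀ i, (F i).IsHomogeneous q)
    {x : Fin (1 + 1) → L} (hx : x ≠ 0) (hw : Wnd F x) (ι θ : L →ₐ[K] M) :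
    Orb (q ^ 2) (fun i => ι (ax F x i)) (fun i => θ (ax F x i)) (JJ F x) := by
  have hX : ∀ i, (act F)^[i] x ≠ 0 := fun i => hB.iter_ne_zero hx i
  refine ⟨?_, ?_, ?_⟩
  · intro i hi j hj hij
    by_contra hne
    replace hij : ax F x i = ax F x j := ι.injective hij
    have hi' : ((act F)^[i] x) 1 ≠ 0 := hi
    have hj' : ((act F)^[j] x) 1 ≠ 0 := hj
    refine hw ⟨i, j, hne, ((act F)^[j] x) 1 * (((act F)^[i] x) 1)⁻¹,
      mul_ne_zero hj' (inv_ne_zero hi'), ?_⟩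
    have h1 := ax_vec hi
    have h2 := ax_vec hj
    rw [← hij, h1] at h2
    rw [mul_smul, h2, smul_smul, mul_inv_cancel₀ hj', one_smul]
  · intro i j hi hj
    by_contra hne
    have hi' : ((act F)^[i] x) 1 = 0 := by
      by_contra h
      exact hi h
    have hj' : ((act F)^[j] x) 1 = 0 := by
      by_contra h
      exact hj h
    have hi0 : ((act F)^[i] x) 0 ≠ 0 := by
      intro h
      apply hX i
      funext t
      fin_cases t
      · exact h
      · exact hi'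
    have hj0 : ((act F)^[j] x) 0 ≠ 0 := by
      intro h
      apply hX j
      funext t
      fin_cases t
      · exact h
      · exact hj'
    refine hw ⟨i, j, hne, ((act F)^[j] x) 0 * (((act F)^[i] x) 0)⁻¹,
      mul_ne_zero hj0 (inv_ne_zero hi0), ?_⟩
    funext t
    fin_cases t
    · change ((act F)^[j] x) 0 = ((act F)^[j] x) 0 * (((act F)^[i] x) 0)⁻¹ * ((act F)^[i] x) 0
      rw [mul_assoc, inv_mul_cancel₀ hi0, mul_one]
    · change ((act F)^[j] x) 1 = ((act F)^[j] x) 0 * (((act F)^[i] x) 0)⁻¹ * ((act F)^[i] x) 1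
      rw [hi', hj', mul_zero]
  · rintro j (rfl | rfl)
    · refine step_of hF (Nat.le_self_pow (by norm_num) q) (fun i => ?_) ι θ
      rw [Function.iterate_succ_apply']
    · have hH : ∀ i, (MvPolynomial.bind₁ F (F i)).IsHomogeneous (q ^ 2) := by
        intro i
        have h1 := (hF i).aeval (R := K) F hF
        have h2 : q * q = q ^ 2 := by ring
        rw [h2] at h1
        exact h1
      refine step_of (H := fun i => MvPolynomial.bind₁ F (F i)) hH le_rfl (fun i => ?_) ι θ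
      rw [show i + 2 = (i + 1) + 1 from rfl, Function.iterate_succ_apply',
        Function.iterate_succ_apply']
      funext t
      simp only [act, MvPolynomial.aeval_bind₁]
      rfl

lemma hgt_vec (φ : L →ₐ[K] M) (z : L) :
    Height.logHeight₁ (φ z) * finrank ℚ L = Height.logHeight₁ z * finrank ℚ M := by
  have h1 := logHeight_hom (N := 1) (φ : L →+* M) ![z, 1]
  have h3 : (fun t => (φ : L →+* M) ((![z, 1] : Fin (1 + 1) → L) t)) = ![φ z, 1] := map_vec φ z
  rw [h3] at h1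
  rw [Height.logHeight₁_eq_logHeight, Height.logHeight₁_eq_logHeight]
  exact h1

lemma hgt_eq (ι θ : L →ₐ[K] M) (z : L) :
    Height.logHeight₁ (θ z) = Height.logHeight₁ (ι z) := by
  have hD := finrank_pos' (L := L)
  apply mul_right_cancel₀ hD.ne'
  rw [hgt_vec, hgt_vec]

lemma hgt_tendsto' (hB : Bds F q A a) (hq : 2 ≤ q) {x : Fin (1 + 1) → L} (hx : x ≠ 0)
    (hpos : 0 < canH F q x) (ι : L →ₐ[K] M) (B : ℝ) :
    ∃ s, ∀ i ∈ JJ F x, s ≤ i → B < Height.logHeight₁ (ι (ax F x i)) := by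
  have hD := finrank_pos' (L := L)
  have hM := finrank_pos' (L := M)
  obtain ⟨s, hs⟩ := hgt_tendsto hB hq hx hpos (B * finrank ℚ L / finrank ℚ M)
  refine ⟨s, fun i hi hsi => ?_⟩
  have h1 := hs i hi hsi
  rw [div_lt_iff₀ hM, ← hgt_vec ι] at h1
  exact lt_of_mul_lt_mul_right h1 hD.le

/-- **the lower bound** -/
theorem core (hB : Bds F q A a) (hq : 2 ≤ q) (hF : ∀ i, (F i).IsHomogeneous q)
    (hc : ∀ m, c + q ≤ m → ∀ p : MvPolynomial (Fin (1 + 1)) K, p.IsHomogeneous m →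
      p ∈ Ideal.span (Set.range F)) {N₀ : ℕ} (hN₀ : 2 ≤ N₀) {ω : ℝ} (hω : 0 < ω) :
    ∃ (j : ℕ) (κ : ℝ), 0 < κ ∧ ∀ (L M : Type) [Field L] [NumberField L] [Field M] [NumberField M]
      [Algebra K L] [Algebra K M] (ι θ : L →ₐ[K] M) (T : Finset (FinitePlace M))
      (g : FinitePlace M → ℝ), (∀ v ∈ T, GR v F q) → (∀ v ∈ T, 0 < g v) →
      (∀ v ∈ T, Fr v ι θ (N₀ ^ j) (g v)) → (finrank ℚ M : ℝ) * ω ≤ ∑ v ∈ T, g v →
      ∀ x : Fin (1 + 1) → L, x ≠ 0 → Wnd F x → 0 < canH F q x → κ ≤ canH F q x := by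
  classical
  have hE : 0 ≤ hC A a * ((c + q : ℕ) : ℝ) := mul_nonneg hB.hC_nonneg (Nat.cast_nonneg _)
  obtain ⟨j, hj1, hj2, hj3⟩ := exists_par hω hE hN₀
  obtain ⟨Q, hQ⟩ : ∃ Q, Q = N₀ ^ j := ⟨_, rfl⟩
  obtain ⟨S, hS⟩ : ∃ S, S = j ^ 2 := ⟨_, rfl⟩
  rw [← hQ, ← hS] at hj1 hj3
  obtain ⟨M₀, c₀, hwin⟩ := window (q ^ 2) (8 * S) (Q * (8 * S))
  obtain ⟨t, ht⟩ : ∃ t, t = 8 * S * (Q + 1) + 1 := ⟨_, rfl⟩
  have ht1 : 1 ≤ t := by omega
  have ht0 : (0 : ℝ) < t := by exact_mod_cast ht1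
  obtain ⟨R₀, hR₀⟩ := exists_R0 (δ := ω / (32 * t)) (by positivity) hE
  obtain ⟨R₁, hR₁⟩ : ∃ R₁, R₁ = max R₀ (8 * t) + 1 := ⟨_, rfl⟩
  obtain ⟨m₁, hm₁⟩ : ∃ m₁, m₁ = max M₀ (c₀ * R₁ + 1) := ⟨_, rfl⟩
  obtain ⟨η, hη⟩ : ∃ η : ℝ, η = min (1 / (((Q * (8 * S) : ℕ) + (8 * S : ℕ) : ℝ) + 1))
    (ω / (32 * t)) := ⟨_, rfl⟩
  have hη0 : 0 < η := by
    rw [hη]
    apply lt_min <;> positivity
  have hη1 : (((Q * (8 * S) : ℕ) + (8 * S : ℕ) : ℝ)) * η ≤ 1 := by
    have h1 : η ≤ 1 / (((Q * (8 * S) : ℕ) + (8 * S : ℕ) : ℝ) + 1) := hη ▸ min_le_left _ _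
    rw [le_div_iff₀ (by positivity)] at h1
    nlinarith
  have hη2 : 32 * t * η ≤ ω := by
    have h1 : η ≤ ω / (32 * t) := hη ▸ min_le_right _ _
    rw [le_div_iff₀ (by positivity)] at h1
    linarith
  have hq0 : (0 : ℝ) < q := by
    have : 0 < q := by omega
    exact_mod_cast this
  refine ⟨j, η / q ^ m₁, by positivity, ?_⟩
  intro L M _ _ _ _ _ _ ι θ T g hT hg hfr hωT x hx hw hpos
  rw [← hQ] at hfr
  by_contra hcon
  push Not at hcon
  rw [lt_div_iff₀ (by positivity)] at hcon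
  have hsmall : ∀ i, i ∈ JJ F x → i < m₁ →
      canH F q (![ax F x i, 1] : Fin (1 + 1) → L) ≤ η := by
    intro i hi him
    have hi' : ((act F)^[i] x) 1 ≠ 0 := hi
    rw [ax_vec hi, canH_smul hF (inv_ne_zero hi'), hB.canH_iter hq hx]
    have h1 : (q : ℝ) ^ i ≤ q ^ m₁ := by
      apply pow_le_pow_right₀ _ him.le
      exact_mod_cast (by omega : 1 ≤ q)
    have h2 := mul_le_mul_of_nonneg_right h1 hpos.le
    linarith
  have hO := exists_orb hB hF hx hw ι θ
  -- the first relation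
  obtain ⟨G, hG0, hG1, hG2, hG3⟩ := step_zero hB hq hF hc
    (ι := {i // i ∈ (Finset.range m₁).filter fun i => i ∈ JJ F x}) T hT g hg hωT hω
    (fun i => ι (ax F x i)) (fun i => θ (ax F x i)) (fun v hv i => (hfr v hv).pr2 _)
    (fun i => by
      obtain ⟨h1, h2⟩ := Finset.mem_filter.mp i.2
      rw [canH_vec]
      exact hsmall i h2 (Finset.mem_range.mp h1))
    (fun i => by
      obtain ⟨h1, h2⟩ := Finset.mem_filter.mp i.2
      rw [canH_vec]
      exact hsmall i h2 (Finset.mem_range.mp h1)) hη1 hj3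
  -- the window
  have hII : ∀ T', TMin (fun i => ι (ax F x i)) (fun i => θ (ax F x i)) (JJ F x) T' →
      XD T'.natDegree T' := by
    intro T' hT'
    exact deg_le hO (fun i _ => hgt_eq ι θ _) (fun B => hgt_tendsto' hB hq hx hpos ι B) hT'
  obtain ⟨s', m', G', h1, h2, h3, h4, h5, h6, h7⟩ := hwin M _ _ _ hO hII 0 m₁
    (hm₁ ▸ le_max_left _ _) G hG0 hG1 hG2 (fun i hi _ him => by
      refine hG3 ⟨i, Finset.mem_filter.mpr ⟨Finset.mem_range.mpr ?_, hi⟩⟩
      omega)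
  have hm' : R₁ ≤ m' := by
    by_contra hlt
    push Not at hlt
    have h8 : c₀ * m' ≤ c₀ * R₁ := Nat.mul_le_mul_left _ hlt.le
    have h9 : c₀ * R₁ + 1 ≤ m₁ := hm₁ ▸ le_max_right _ _
    omega
  -- the number of the points
  set E := (Finset.Ico s' (s' + m')).filter fun i => i ∈ JJ F x with hE'
  have hcard : m' ≤ E.card + 1 := by
    have h8 : E.card + ((Finset.Ico s' (s' + m')).filter fun i => ¬ i ∈ JJ F x).card =
        (Finset.Ico s' (s' + m')).card := by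
      rw [hE']
      exact Finset.card_filter_add_card_filter_not (s := Finset.Ico s' (s' + m'))
        (fun i => i ∈ JJ F x)
    have h9 : ((Finset.Ico s' (s' + m')).filter fun i => ¬ i ∈ JJ F x).card ≤ 1 := by
      rw [Finset.card_le_one]
      intro i hi k hk
      exact hO.miss i k (Finset.mem_filter.mp hi).2 (Finset.mem_filter.mp hk).2
    rw [Nat.card_Ico] at h8
    omega
  have hι : Fintype.card {i // i ∈ E} = E.card := Fintype.card_coe E
  refine step_last hB hq hF hc (ι := {i // i ∈ E}) T hT g hg hωT hω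
    (fun i => ι (ax F x i)) ?_ ?_ ht1 hη0.le hη2 ?_ ?_ ?_
  · intro i k hik
    apply Subtype.ext
    exact hO.inj (Finset.mem_filter.mp i.2).2 (Finset.mem_filter.mp k.2).2 hik
  · intro i
    obtain ⟨h8, h9⟩ := Finset.mem_filter.mp i.2
    rw [Finset.mem_Ico] at h8
    rw [canH_vec]
    exact hsmall i h9 (by omega)
  · intro v hv
    have hF' := hfr v hv
    have hlt : Real.exp (-g v) < 1 := Real.exp_lt_one_iff.mpr (by linarith [hg v hv])
    rw [ht]
    refine classes_rel (ι := {i // i ∈ E}) hj1 h4 h5 h6 (fun i => ι (ax F x i))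
      (fun i => θ (ax F x i)) (fun i hi => ?_)
      (fun i i' hii => ?_) (fun i i' hii => ?_) fun i => ?_
    · obtain ⟨h8, h9⟩ := hF'.fr _ hi
      exact ⟨h8, lt_of_le_of_lt h9 hlt⟩
    · have h8 : ι (ax F x i) - ι (ax F x i') = ι (ax F x i - ax F x i') := (map_sub ι _ _).symm
      rw [h8] at hii ⊢
      exact hF'.sm _ hii
    · have h8 : (ι (ax F x i))⁻¹ - (ι (ax F x i'))⁻¹ = ι ((ax F x i)⁻¹ - (ax F x i')⁻¹) := by
        rw [map_sub, map_inv₀, map_inv₀]
      rw [h8] at hii ⊢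
      exact hF'.sm _ hii
    · obtain ⟨h8, h9⟩ := Finset.mem_filter.mp i.2
      rw [Finset.mem_Ico] at h8
      exact h7 i h9 h8.1 h8.2
  · rw [hι]
    have := le_max_right R₀ (8 * t)
    omega
  · rw [hι]
    apply hR₀
    have := le_max_left R₀ (8 * t)
    omega

end

end Pool.Agent.R829.BH
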