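import Mathlib
import Pool.Agent.R829.BH.Orbs
import Pool.Agent.H627.LU.Cn

/-!
Frobenius elements and embeddings of a field of bounded degree over a Galois extension in which the
powers have few conjugates.
-/

set_option autoImplicit false
set_option linter.unusedSectionVars false

namespace Pool.Agent.R829.BH

open NumberField Module
open Pool.Agent.W238.Leh
open Pool.Agent.H627.LP hiding det_ineq det_ineq' local_gain
open Pool.Agent.H627.LR (GR)
open Pool.Agent.H627.LU (exists_H')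
open Pool.Agent.H420R3 (mi nv TP ew mem_TP v_smul nv_pos v_fixed_le card_inertia sum_ew ew_pos
  TP_nonempty)
open scoped Pointwise

noncomputable section

section Loc

variable {K L M : Type} [Field K] [NumberField K] [Field L] [NumberField L] [Field M]
  [NumberField M] [Algebra K L] [Algebra K M] [Algebra L M] [IsScalarTower K L M]
  [IsGalois K M] {P : Ideal (𝓞 K)} [hP : P.IsMaximal]

/-- closeness to the graph of Frobenius under bounded ramification -/
theorem fr_of (hP0 : P ≠ ⊥) {w : FinitePlace M} (hw : w ∈ TP M P) {σ : Gal(M/K)} {Q : ℕ}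
    (hfr : FrobAt w σ Q) {e : ℕ} (he1 : 1 ≤ e)
    (he : ((mi w).under (𝓞 L)).ramificationIdx (𝓞 K) ≤ e) :
    Fr w (IsScalarTower.toAlgHom K L M)
      ((σ : M →ₐ[K] M).comp (IsScalarTower.toAlgHom K L M)) Q (ew K w * (1 / (e : ℝ))) := by
  set I := (mi w).inertia Gal(M/K) with hI
  obtain ⟨H, hH, hfix, hcard⟩ := exists_H' (L := L) hP0 hw hw (σ := 1) (by rw [one_smul]) he
  have he' : (1 : ℝ) ≤ e := by exact_mod_cast he1
  have hlog := H420R3.log_nv_pos w
  have hew := ew_pos (K := K) w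
  have hbH : (nv w ^ Nat.card H)⁻¹ ≤ Real.exp (-(ew K w * (1 / (e : ℝ)))) := by
    have h1 : (nv w ^ Nat.card H)⁻¹ = Real.exp (-(Nat.card H * Real.log (nv w))) := by
      rw [Real.exp_neg, Real.exp_nat_mul, Real.exp_log (nv_pos w)]
    rw [h1, Real.exp_le_exp, neg_le_neg_iff, ← card_inertia hP0 hw, mul_one_div,
      div_le_iff₀ (by linarith)]
    have h2 : (Nat.card I : ℝ) ≤ e * Nat.card H := by exact_mod_cast hcard
    nlinarith
  have hbI : (nv w ^ Nat.card I)⁻¹ ≤ Real.exp (-(ew K w * (1 / (e : ℝ)))) := by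
    have h2 : (nv w ^ Nat.card I)⁻¹ = Real.exp (-ew K w) := by
      rw [← card_inertia hP0 hw, Real.exp_neg, Real.exp_nat_mul, Real.exp_log (nv_pos w)]
    rw [h2, Real.exp_le_exp, neg_le_neg_iff]
    calc ew K w * (1 / (e : ℝ)) ≤ ew K w * 1 := by
          apply mul_le_mul_of_nonneg_left _ hew.le
          rw [div_le_one (by linarith)]
          exact he'
      _ = ew K w := mul_one _
  have hfix' : ∀ h ∈ H, ∀ z : L, h (algebraMap L M z) = algebraMap L M z := fun h hh z =>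
    hfix h hh z
  refine ⟨?_, ?_⟩
  · intro z hz
    change w (algebraMap L M z) ≤ 1 at hz
    change w (σ (algebraMap L M z)) ≤ 1 ∧
      w (σ (algebraMap L M z) - (algebraMap L M z) ^ Q) ≤ _
    set x := algebraMap L M z with hx
    refine ⟨by rw [v_smul w hfr.1]; exact hz, ?_⟩
    obtain ⟨c, hc1, hc2, hc3⟩ := center (K := K) w hz
    have h1 : w (x - c) ≤ Real.exp (-(ew K w * (1 / (e : ℝ)))) := by
      refine le_trans (v_fixed_le w H hH ?_ hc3) hbH
      intro h hh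
      rw [map_sub, hfix' h hh, hc1 h (hH hh)]
    have h2 : w (σ c - c ^ Q) ≤ Real.exp (-(ew K w * (1 / (e : ℝ)))) := by
      refine le_trans (v_fixed_le w I le_rfl ?_ (hfr.lt hc2)) hbI
      intro h hh
      rw [map_sub, map_pow, hc1 h hh]
      have h3 := hc1 _ (inertia_conj hfr.1 hh)
      have h4 : h (σ c) = σ ((σ⁻¹ * h * σ) c) := by
        rw [← AlgEquiv.mul_apply, ← AlgEquiv.mul_apply, ← mul_assoc, ← mul_assoc,
          mul_inv_cancel, one_mul]
      rw [h4, h3]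
    have h3 : w (x ^ Q - c ^ Q) ≤ Real.exp (-(ew K w * (1 / (e : ℝ)))) :=
      (v_pow_sub w (v_nonneg w _) hz hc2 le_rfl Q).trans h1
    have h4 : σ x - x ^ Q = (σ (x - c) + (σ c - c ^ Q)) - (x ^ Q - c ^ Q) := by
      rw [map_sub]
      ring
    rw [h4]
    refine (v_sub_le w _ _).trans (max_le ((FinitePlace.add_le w _ _).trans (max_le ?_ h2)) h3)
    rw [v_smul w hfr.1]
    exact h1
  · intro z hz
    change w (algebraMap L M z) < 1 at hz
    change w (algebraMap L M z) ≤ _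
    exact le_trans (v_fixed_le w H hH (fun h hh => hfix' h hh z) hz) hbH

end Loc

section Card

variable {K E L M : Type} [Field K] [Field E] [Field L] [Field M] [Algebra K E] [Algebra K L]
  [Algebra E L] [IsScalarTower K E L] [FiniteDimensional E L] [Algebra K M]

/-- the number of extensions of an embedding -/
lemma card_ext (c : E →ₐ[K] M) (S : Finset (L →ₐ[K] M))
    (hS : ∀ θ ∈ S, ∀ z : E, θ (algebraMap E L z) = c z) : S.card ≤ finrank E L := by
  classical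
  let _ : Algebra E M := (c : E →+* M).toAlgebra
  have h1 := card_algHom_le_finrank E L M
  have hfin : Finite (L →ₐ[E] M) := inferInstance
  refine le_trans ?_ h1
  rw [← Fintype.card_coe, ← Nat.card_eq_fintype_card]
  refine Nat.card_le_card_of_injective (fun θ : S =>
    ({ (θ : L →ₐ[K] M).toRingHom with
      commutes' := fun z => hS θ θ.2 z } : L →ₐ[E] M)) ?_
  intro θ θ' h
  apply Subtype.ext
  ext z
  exact congrArg (fun φ : L →ₐ[E] M => φ z) h

end Card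

section Conj

variable {K M : Type} [Field K] [NumberField K] [Field M] [NumberField M] [Algebra K M]

lemma frob_conj {v w : FinitePlace M} {τ g : Gal(M/K)} {Q : ℕ} (h : FrobAt v τ Q)
    (hg : g • mi v = mi w) : FrobAt w (g * τ * g⁻¹) Q := by
  refine ⟨?_, fun x => ?_⟩
  · rw [← hg, smul_smul, inv_mul_cancel_right, mul_smul, h.1]
  · have h1 := h.2 (g⁻¹ • x)
    have h2 : g • (τ • (g⁻¹ • x) - (g⁻¹ • x) ^ Q) ∈ g • mi v :=
      Ideal.smul_mem_pointwise_smul_iff.mpr h1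
    rw [hg, smul_sub, smul_smul, smul_smul, smul_pow', smul_inv_smul] at h2
    exact h2

end Conj

section Ram

variable {E L : Type} [Field E] [NumberField E] [Field L] [NumberField L] [Algebra E L]

/-- the ramification index is at most the degree -/
lemma ram_le (𝔔 : Ideal (𝓞 L)) [h𝔔 : 𝔔.IsPrime] (h0 : 𝔔 ≠ ⊥) :
    𝔔.ramificationIdx (𝓞 E) ≤ finrank E L := by
  have hm : 𝔔.IsMaximal := h𝔔.isMaximal h0
  have hpm : (𝔔.under (𝓞 E)).IsMaximal := Ideal.isMaximal_comap_of_isIntegral_of_isMaximal 𝔔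
  have hlo : 𝔔.LiesOver (𝔔.under (𝓞 E)) := ⟨rfl⟩
  have hp0 : 𝔔.under (𝓞 E) ≠ ⊥ := by
    intro h
    have := Ideal.eq_bot_of_comap_eq_bot (R := 𝓞 E) (I := 𝔔) h
    exact h0 this
  let u : IsDedekindDomain.HeightOneSpectrum (𝓞 L) := ⟨𝔔, h𝔔, h0⟩
  have hu : mi (FinitePlace.mk u) = 𝔔 := by
    unfold mi
    rw [FinitePlace.maximalIdeal_mk]
  have hmem : FinitePlace.mk u ∈ TP L (𝔔.under (𝓞 E)) := by
    rw [mem_TP hp0, hu]
    exact ⟨h𝔔, hlo⟩
  have h1 := sum_ef (K := E) (M := L) (P := 𝔔.under (𝓞 E)) hp0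
  have h2 := Finset.single_le_sum (f := fun w : FinitePlace L =>
    (mi w).ramificationIdx (𝓞 E) * (mi w).inertiaDeg (𝓞 E)) (fun _ _ => Nat.zero_le _) hmem
  rw [h1] at h2
  simp only [hu] at h2
  have h3 : 1 ≤ 𝔔.inertiaDeg (𝓞 E) := 𝔔.inertiaDeg_pos (𝓞 E)
  calc 𝔔.ramificationIdx (𝓞 E) = 𝔔.ramificationIdx (𝓞 E) * 1 := (mul_one _).symm
    _ ≤ 𝔔.ramificationIdx (𝓞 E) * 𝔔.inertiaDeg (𝓞 E) := Nat.mul_le_mul_left _ h3
    _ ≤ _ := h2

end Ram

section Data

variable {K E L M : Type} [Field K] [NumberField K] [Field E] [NumberField E] [Field L]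
  [NumberField L] [Field M] [NumberField M] [Algebra K E] [Algebra K L] [Algebra E L]
  [IsScalarTower K E L] [Algebra K M] [Algebra E M] [Algebra L M] [IsScalarTower K L M]
  [IsScalarTower K E M] [IsScalarTower E L M] [IsGalois K M] [IsGalois K E]
  {P : Ideal (𝓞 K)} [hP : P.IsMaximal]

/-- **the pigeonhole principle for embeddings** -/
theorem exists_data (hP0 : P ≠ ⊥) (m B j D e : ℕ)
    (hconj : ∀ (σ : Gal(E/K)) (𝔓 : Ideal (𝓞 E)), 𝔓.IsPrime → 𝔓.under (𝓞 K) = P →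
      (∀ z : 𝓞 E, σ • z - z ^ P.absNorm ∈ 𝔓) →
      (Set.range fun g : Gal(E/K) => g * σ ^ m * g⁻¹).ncard ≤ B)
    (hD : finrank E L ≤ D) (he1 : 1 ≤ e)
    (he : ∀ 𝔓 : Ideal (𝓞 E), 𝔓.IsPrime → 𝔓.under (𝓞 K) = P → 𝔓.ramificationIdx (𝓞 K) ≤ e) :
    ∃ (θ : L →ₐ[K] M) (T : Finset (FinitePlace M)), T ⊆ TP M P ∧
      (∀ w ∈ T, Fr w (IsScalarTower.toAlgHom K L M) θ ((P.absNorm ^ m) ^ j)
        (ew K w * (1 / ((e * D : ℕ) : ℝ)))) ∧
      ∑ w ∈ TP M P, ew K w ≤ (B * D : ℕ) * ∑ w ∈ T, ew K w := by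
  classical
  obtain ⟨w₀, hw₀⟩ := TP_nonempty (M := M) (P := P) hP0
  obtain ⟨τ₀, h1, h2⟩ := H420R3.exists_frob (K := K) hP0 hw₀ 1
  rw [pow_one] at h2
  have h3 : FrobAt w₀ (τ₀ ^ m) (P.absNorm ^ m) := (show FrobAt w₀ τ₀ P.absNorm from ⟨h1, h2⟩).pow m
  have h4 := h3.pow j
  have hex : ∀ w, w ∈ TP M P → ∃ g : Gal(M/K), g • mi w₀ = mi w := by
    intro w hw
    have hlo := H420R3.liesOver_of_mem hP0 hw
    have hlo₀ := H420R3.liesOver_of_mem hP0 hw₀
    exact Ideal.exists_smul_eq_of_isGaloisGroup P (mi w₀) (mi w) Gal(M/K)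
  choose! g hg using hex
  set ψ : FinitePlace M → (L →ₐ[K] M) := fun w =>
    ((g w * (τ₀ ^ m) ^ j * (g w)⁻¹ : Gal(M/K)) : M →ₐ[K] M).comp
      (IsScalarTower.toAlgHom K L M) with hψ
  set r : Gal(M/K) →* Gal(E/K) := AlgEquiv.restrictNormalHom E with hr
  set S : Finset Gal(E/K) := Finset.univ.image fun g : Gal(E/K) => g * (r τ₀) ^ m * g⁻¹ with hS
  have hlo₀ := H420R3.liesOver_of_mem hP0 hw₀
  have hScard : S.card ≤ B := by
    have hmax : ((mi w₀).under (𝓞 E)).IsMaximal :=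
      Ideal.isMaximal_comap_of_isIntegral_of_isMaximal (mi w₀)
    have h5 := hconj (r τ₀) ((mi w₀).under (𝓞 E)) hmax.isPrime
      (by
        rw [Ideal.under_under]
        exact hlo₀.over.symm)
      (fun z => by
        change algebraMap (𝓞 E) (𝓞 M) (r τ₀ • z - z ^ P.absNorm) ∈ mi w₀
        have h6 : algebraMap (𝓞 E) (𝓞 M) (r τ₀ • z) = τ₀ • algebraMap (𝓞 E) (𝓞 M) z := by
          apply RingOfIntegers.coe_injective
          exact AlgEquiv.restrictNormal_commutes τ₀ E (z : E)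
        rw [map_sub, map_pow, h6]
        exact h2 _)
    rw [Set.ncard_eq_toFinset_card'] at h5
    refine le_trans (le_of_eq ?_) h5
    congr 1
    ext y
    simp [hS]
  set I := (TP M P).image ψ with hI
  have hsub : I ⊆ S.biUnion fun s => I.filter fun θ =>
      ∀ z : E, θ (algebraMap E L z) =
        ((IsScalarTower.toAlgHom K E M).comp ((s ^ j : Gal(E/K)) : E →ₐ[K] E)) z := by
    intro θ hθ
    obtain ⟨w, hw, hwθ⟩ := Finset.mem_image.mp hθ
    rw [Finset.mem_biUnion]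
    refine ⟨r (g w) * (r τ₀) ^ m * (r (g w))⁻¹,
      Finset.mem_image.mpr ⟨r (g w), Finset.mem_univ _, rfl⟩, Finset.mem_filter.mpr ⟨hθ, ?_⟩⟩
    intro z
    rw [← hwθ]
    change (g w * (τ₀ ^ m) ^ j * (g w)⁻¹) (algebraMap L M (algebraMap E L z)) =
      algebraMap E M (((r (g w) * (r τ₀) ^ m * (r (g w))⁻¹) ^ j) z)
    rw [← IsScalarTower.algebraMap_apply]
    have h5 : (r (g w) * (r τ₀) ^ m * (r (g w))⁻¹) ^ j =
        r (g w * (τ₀ ^ m) ^ j * (g w)⁻¹) := by
      rw [conj_pow, map_mul, map_mul, map_pow, map_pow, map_inv]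
    rw [h5]
    exact (AlgEquiv.restrictNormal_commutes _ E z).symm
  have hIcard : I.card ≤ B * D := by
    refine (Finset.card_le_card hsub).trans (Finset.card_biUnion_le.trans ?_)
    have h5 : ∀ s ∈ S, (I.filter fun θ => ∀ z : E, θ (algebraMap E L z) =
        ((IsScalarTower.toAlgHom K E M).comp ((s ^ j : Gal(E/K)) : E →ₐ[K] E)) z).card ≤ D :=
      fun s _ => (card_ext _ _ fun θ hθ => (Finset.mem_filter.mp hθ).2).trans hD
    refine (Finset.sum_le_card_nsmul _ _ _ h5).trans ?_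
    rw [smul_eq_mul]
    exact Nat.mul_le_mul_right _ hScard
  have hIne : I.Nonempty := ⟨ψ w₀, Finset.mem_image_of_mem _ hw₀⟩
  have hBD : (0 : ℝ) < (B * D : ℕ) := by
    have := Finset.card_pos.mpr hIne
    exact_mod_cast (by omega : 0 < B * D)
  have hsum0 : 0 ≤ ∑ w ∈ TP M P, ew K w := Finset.sum_nonneg fun w _ => (ew_pos w).le
  obtain ⟨θ, hθI, hθ⟩ := Finset.exists_le_sum_fiber_of_maps_to_of_nsmul_le_sum
    (s := TP M P) (t := I) (f := ψ) (w := fun w => ew K w)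
    (b := (∑ w ∈ TP M P, ew K w) / (B * D : ℕ)) (fun w hw => Finset.mem_image_of_mem _ hw) hIne
    (by
      rw [nsmul_eq_mul, mul_div_assoc', div_le_iff₀ hBD, mul_comm]
      apply mul_le_mul_of_nonneg_left _ hsum0
      exact_mod_cast hIcard)
  refine ⟨θ, (TP M P).filter fun w => ψ w = θ, Finset.filter_subset _ _, ?_, ?_⟩
  · intro w hw
    obtain ⟨hw1, hw2⟩ := Finset.mem_filter.mp hw
    rw [← hw2]
    have hD1 : 1 ≤ D := (finrank_pos (R := E) (M := L)).trans_le hD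
    have hlow := H420R3.liesOver_of_mem hP0 hw1
    refine fr_of hP0 hw1 (frob_conj h4 (hg w hw1)) (Nat.mul_pos he1 hD1) ?_
    set 𝔔 : Ideal (𝓞 L) := (mi w).under (𝓞 L) with h𝔔
    have h𝔔m : 𝔔.IsMaximal := Ideal.isMaximal_comap_of_isIntegral_of_isMaximal (mi w)
    set 𝔭 : Ideal (𝓞 E) := 𝔔.under (𝓞 E) with h𝔭
    have h𝔭m : 𝔭.IsMaximal := Ideal.isMaximal_comap_of_isIntegral_of_isMaximal 𝔔
    have hlo1 : 𝔔.LiesOver 𝔭 := ⟨rfl⟩
    have h𝔔P : 𝔔.under (𝓞 K) = P := by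
      rw [h𝔔, Ideal.under_under]
      exact hlow.over.symm
    have h𝔭P : 𝔭.under (𝓞 K) = P := by
      rw [h𝔭, Ideal.under_under]
      exact h𝔔P
    have h𝔔0 : 𝔔 ≠ ⊥ := by
      have hlo2 : 𝔔.LiesOver P := ⟨h𝔔P.symm⟩
      exact Ideal.ne_bot_of_liesOver_of_ne_bot hP0 𝔔
    have h5 : 𝔔.ramificationIdx (𝓞 K) =
        𝔭.ramificationIdx (𝓞 K) * 𝔔.ramificationIdx (𝓞 E) :=
      Ideal.ramificationIdx_tower (R := 𝓞 K) 𝔭 𝔔
    rw [h5]
    exact Nat.mul_le_mul (he 𝔭 h𝔭m.isPrime h𝔭P) ((ram_le 𝔔 h𝔔0).trans hD)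
  · rw [div_le_iff₀ hBD] at hθ
    rw [mul_comm]
    exact hθ

end Data

end

end Pool.Agent.R829.BH
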