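import Mathlib
import Pool.Agent.R829.BH.Dat

/-!
Tame inertia and Frobenius elements with few conjugates: the prime-to-`p` part of the ramification
index is bounded.
-/

set_option autoImplicit false
set_option linter.unusedSectionVars false

namespace Pool.Agent.R829.BH

open NumberField Module
open Pool.Agent.W238.Leh
open Pool.Agent.H627.LP hiding det_ineq det_ineq' local_gain
open Pool.Agent.H627.LR (res res_spec res_eq res_pow exists_set v_neg)
open Pool.Agent.H420R3 (mi nv TP ew mem_TP v_smul nv_pos v_fixed_le v_lt_one_iff)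
open Pool.Agent.R829.BG (mul_close pow_close v_sum_lt)
open scoped Pointwise

noncomputable section

variable {K E : Type} [Field K] [NumberField K] [Field E] [NumberField E] [Algebra K E]
  {w : FinitePlace E}

/-- inertia elements act trivially on residues -/
lemma inertia_lt {τ : Gal(E/K)} (hτ : τ ∈ (mi w).inertia Gal(E/K)) {x : E} (hx : w x ≤ 1) :
    w (τ x - x) < 1 := by
  have h1 : FrobAt w τ 1 := ⟨H420R3.inertia_smul w hτ, fun x => by
    rw [pow_one]
    exact AddSubgroup.mem_inertia.mp hτ x⟩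
  have h2 := h1.lt hx
  rwa [pow_one] at h2

lemma inertia_v {τ : Gal(E/K)} (hτ : τ ∈ (mi w).inertia Gal(E/K)) (x : E) : w (τ x) = w x :=
  v_smul w (H420R3.inertia_smul w hτ) x

/-- the quotient by which an automorphism changes a uniformizer -/
def tt (π : E) (τ : Gal(E/K)) : E := τ π / π

section One

variable {π : E} (hπ : π ≠ 0)

include hπ

lemma tt_one : tt (K := K) π 1 = 1 := div_self hπ

lemma w_tt {τ : Gal(E/K)} (hτ : τ ∈ (mi w).inertia Gal(E/K)) : w (tt π τ) = 1 := by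
  unfold tt
  rw [map_div₀, inertia_v hτ, div_self]
  exact (FinitePlace.pos_iff.mpr hπ).ne'

lemma tt_mul {τ ρ : Gal(E/K)} (hτ : τ ∈ (mi w).inertia Gal(E/K))
    (hρ : ρ ∈ (mi w).inertia Gal(E/K)) : w (tt π (τ * ρ) - tt π τ * tt π ρ) < 1 := by
  have h1 : tt π (τ * ρ) = tt π τ * τ (tt π ρ) := by
    unfold tt
    rw [map_div₀, AlgEquiv.mul_apply]
    have : τ π ≠ 0 := (map_ne_zero τ).mpr hπ
    field_simp
  rw [h1, ← mul_sub, map_mul, w_tt hπ hτ, one_mul]
  exact inertia_lt hτ (w_tt hπ hρ).le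

lemma tt_inv_mul {τ ρ : Gal(E/K)} (hτ : τ ∈ (mi w).inertia Gal(E/K))
    (hρ : ρ ∈ (mi w).inertia Gal(E/K)) (h : w (tt π τ - tt π ρ) < 1) :
    w (tt π (ρ⁻¹ * τ) - 1) < 1 := by
  have hδ : ρ⁻¹ * τ ∈ (mi w).inertia Gal(E/K) :=
    Subgroup.mul_mem _ (Subgroup.inv_mem _ hρ) hτ
  have h1 := tt_mul hπ hρ hδ
  rw [mul_inv_cancel_left] at h1
  have h2 : tt π ρ * (tt π (ρ⁻¹ * τ) - 1) =
      (tt π τ - tt π ρ) - (tt π τ - tt π ρ * tt π (ρ⁻¹ * τ)) := by ring
  have h3 : w (tt π ρ * (tt π (ρ⁻¹ * τ) - 1)) < 1 := by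
    rw [h2]
    exact lt_of_le_of_lt (v_sub_le w _ _) (max_lt h h1)
  rwa [map_mul, w_tt hπ hρ, one_mul] at h3

/-- the wild inertia group -/
def Kr (w : FinitePlace E) (hπ : π ≠ 0) : Subgroup Gal(E/K) where
  carrier := {τ | τ ∈ (mi w).inertia Gal(E/K) ∧ w (tt π τ - 1) < 1}
  one_mem' := ⟨Subgroup.one_mem _, by
    rw [tt_one hπ, sub_self, map_zero]
    exact one_pos⟩
  mul_mem' := by
    rintro τ ρ ⟨h1, h2⟩ ⟨h3, h4⟩
    refine ⟨Subgroup.mul_mem _ h1 h3, ?_⟩
    have h5 : tt π (τ * ρ) - 1 = (tt π (τ * ρ) - tt π τ * tt π ρ) +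
        (tt π τ * tt π ρ - 1 * 1) := by ring
    rw [h5]
    refine lt_of_le_of_lt (FinitePlace.add_le w _ _) (max_lt (tt_mul hπ h1 h3) ?_)
    exact mul_close (by rw [map_one]) (w_tt hπ h3).le h2 h4
  inv_mem' := by
    rintro τ ⟨h1, h2⟩
    refine ⟨Subgroup.inv_mem _ h1, ?_⟩
    have h3 := tt_inv_mul hπ (Subgroup.one_mem _) h1 (by
      rw [tt_one hπ, ← v_neg, neg_sub]
      exact h2)
    rwa [mul_one] at h3

lemma mem_Kr {τ : Gal(E/K)} : τ ∈ Kr w hπ ↔ τ ∈ (mi w).inertia Gal(E/K) ∧ w (tt π τ - 1) < 1 :=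
  Iff.rfl

lemma Kr_le : Kr (K := K) w hπ ≤ (mi w).inertia Gal(E/K) := fun _ h => h.1

/-- the order of the wild inertia group is prime to all other primes -/
lemma prime_dvd_Kr [IsGalois K E] (hπ1 : w π < 1) (hπ2 : ¬ w π ≤ (nv w ^ 2)⁻¹) {p : ℕ}
    (hp : ∀ n : ℕ, ¬ p ∣ n → w (n : E) = 1) (hpp : p.Prime) {l : ℕ} (hl : l.Prime)
    (hdvd : l ∣ Nat.card (Kr (K := K) w hπ)) : l = p := by
  classical
  by_contra hne
  have hfact : Fact l.Prime := ⟨hl⟩
  obtain ⟨τ, hτ⟩ := exists_prime_orderOf_dvd_card' l hdvd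
  have hτK : ((τ : Kr (K := K) w hπ) : Gal(E/K)) ∈ Kr w hπ := τ.2
  obtain ⟨σ, hσ⟩ : ∃ σ : Gal(E/K), σ = τ := ⟨_, rfl⟩
  have hσo : orderOf σ = l := by
    rw [hσ, Subgroup.orderOf_coe, hτ]
  rw [← hσ] at hτK
  have hwl : w (l : E) = 1 := by
    apply hp
    intro h
    exact hne ((Nat.prime_dvd_prime_iff_eq hpp hl).mp h).symm
  set y : E := ∑ i ∈ Finset.range l, (σ ^ i) π with hy
  have hσl : σ ^ l = 1 := by
    rw [← hσo]
    exact pow_orderOf_eq_one σ
  have hfix : σ y = y := by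
    have h1 : σ y = ∑ i ∈ Finset.range l, (σ ^ (i + 1)) π := by
      rw [hy, map_sum]
      refine Finset.sum_congr rfl fun i _ => ?_
      rw [pow_succ', AlgEquiv.mul_apply]
    have h2 : ∑ i ∈ Finset.range l, (σ ^ (i + 1)) π + (σ ^ 0) π =
        ∑ i ∈ Finset.range l, (σ ^ i) π + (σ ^ l) π := by
      rw [← Finset.sum_range_succ' (fun i => (σ ^ i) π), Finset.sum_range_succ]
    rw [hσl, pow_zero] at h2
    rw [h1, hy]
    exact add_right_cancel h2
  have hfix' : ∀ h ∈ Subgroup.zpowers σ, h y = y := by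
    intro h hh
    have h1 : Subgroup.zpowers σ ≤ MulAction.stabilizer Gal(E/K) y := by
      rw [Subgroup.zpowers_le]
      exact hfix
    exact h1 hh
  have hquot : w (y / π - l) < 1 := by
    have h1 : y / π - l = ∑ i ∈ Finset.range l, (tt π (σ ^ i) - 1) := by
      rw [Finset.sum_sub_distrib, Finset.sum_const, Finset.card_range, nsmul_eq_mul, mul_one, hy,
        Finset.sum_div]
      rfl
    rw [h1]
    exact v_sum_lt _ _ fun i _ => (Subgroup.pow_mem _ hτK i).2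
  have hwy : w (y / π) = 1 := by
    apply le_antisymm
    · have h1 : y / π = (y / π - l) + l := by ring
      rw [h1]
      exact (FinitePlace.add_le w _ _).trans (max_le hquot.le hwl.le)
    · by_contra hcon
      push Not at hcon
      have h1 : (l : E) = y / π - (y / π - l) := by ring
      have h2 : w (l : E) < 1 := by
        rw [h1]
        exact lt_of_le_of_lt (v_sub_le w _ _) (max_lt hcon hquot)
      linarith
  have hwy' : w y = w π := by
    rw [map_div₀, div_eq_one_iff_eq (FinitePlace.pos_iff.mpr hπ).ne'] at hwy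
    exact hwy
  have h1 := v_fixed_le w (Subgroup.zpowers σ)
    ((Subgroup.zpowers_le.mpr hτK).trans (Kr_le hπ)) hfix' (by rw [hwy']; exact hπ1)
  rw [Nat.card_zpowers, hσo, hwy'] at h1
  apply hπ2
  refine h1.trans (inv_anti₀ (pow_pos (nv_pos w) 2) ?_)
  exact pow_le_pow_right₀ (H420R3.one_lt_nv w).le hl.two_le

/-- commuting with Frobenius -/
lemma tt_frob {σ δ : Gal(E/K)} {Q : ℕ} (hfr : FrobAt w σ Q)
    (hδ : δ ∈ (mi w).inertia Gal(E/K)) (hc : δ * σ = σ * δ) :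
    w (tt π δ ^ Q - tt π δ) < 1 := by
  have hσw : ∀ x, w (σ x) = w x := fun x => v_smul w hfr.1 x
  set π' : E := σ⁻¹ π with hπ'
  have hσπ' : σ π' = π := by
    rw [hπ', ← AlgEquiv.mul_apply, mul_inv_cancel]
    rfl
  have hwπ' : w π' = w π := by rw [← hσπ', hσw]
  have hπ'0 : π' ≠ 0 := (map_ne_zero σ⁻¹).mpr hπ
  have hwπ : w π ≠ 0 := (FinitePlace.pos_iff.mpr hπ).ne'
  set u : E := π' / π with hu
  have hu0 : u ≠ 0 := div_ne_zero hπ'0 hπ
  have hwu : w u = 1 := by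
    rw [hu, map_div₀, hwπ', div_self hwπ]
  -- the quotient for `π'`
  have h1 : δ π' / π' = (δ u / u) * tt π δ := by
    have h2 : π' = u * π := by
      rw [hu]
      field_simp
    have h3 : δ π' = δ u * δ π := by rw [← map_mul, ← h2]
    rw [h3, h2]
    unfold tt
    field_simp
  have h2 : w (δ u / u - 1) < 1 := by
    have h3 : δ u / u - 1 = (δ u - u) / u := by
      field_simp
    rw [h3, map_div₀, hwu, div_one]
    exact inertia_lt hδ hwu.le
  have hwt := w_tt hπ hδ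
  have h3 : w (δ π' / π' - tt π δ) < 1 := by
    have h4 : δ π' / π' - tt π δ = (δ u / u - 1) * tt π δ := by
      rw [h1]
      ring
    rw [h4, map_mul, hwt, mul_one]
    exact h2
  have hw1 : w (δ π' / π') ≤ 1 := by
    rw [map_div₀, inertia_v hδ, div_self]
    rw [hwπ']
    exact hwπ
  have h4 : tt π δ = σ (δ π' / π') := by
    have h5 : δ (σ π') = σ (δ π') := congrArg (fun g : Gal(E/K) => g π') hc
    rw [map_div₀, ← h5, hσπ']
    rfl
  have h5 : w (tt π δ - (δ π' / π') ^ Q) < 1 := by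
    have h6 := hfr.lt hw1
    rwa [← h4] at h6
  have h6 : w ((δ π' / π') ^ Q - tt π δ ^ Q) < 1 := pow_close hw1 hwt.le h3 Q
  have h7 : tt π δ ^ Q - tt π δ = -((tt π δ - (δ π' / π') ^ Q) +
      ((δ π' / π') ^ Q - tt π δ ^ Q)) := by ring
  rw [h7, v_neg]
  exact lt_of_le_of_lt (FinitePlace.add_le w _ _) (max_lt h5 h6)

/-- elements of inertia commuting with Frobenius -/
lemma card_comm {σ : Gal(E/K)} {Q : ℕ} (hQ : 1 < Q) (hfr : FrobAt w σ Q) :
    Nat.card ((mi w).inertia Gal(E/K) ⊓ Subgroup.centralizer {σ} : Subgroup Gal(E/K)) ≤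
      Nat.card (Kr (K := K) w hπ) * Q := by
  classical
  set Z := ((mi w).inertia Gal(E/K) ⊓ Subgroup.centralizer {σ} : Subgroup Gal(E/K)) with hZ
  obtain ⟨S, hS1, hS2⟩ := exists_set w Q hQ
  let := Fintype.ofFinite Z
  set f : Z → 𝓞 E ⧸ mi w := fun δ => res w (tt π (δ : Gal(E/K))) with hf
  have h1 : (Finset.univ : Finset Z).card ≤
      Nat.card (Kr (K := K) w hπ) * (Finset.univ.image f).card := by
    refine Finset.card_le_mul_card_image _ _ fun b hb => ?_
    obtain ⟨δ₀, _, rfl⟩ := Finset.mem_image.mp hb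
    rw [← Fintype.card_coe, ← Nat.card_eq_fintype_card]
    refine Nat.card_le_card_of_injective
      (fun δ : (Finset.univ.filter fun δ => f δ = f δ₀) =>
        (⟨((δ₀ : Z) : Gal(E/K))⁻¹ * ((δ : Z) : Gal(E/K)), ?_⟩ : Kr (K := K) w hπ)) ?_
    · have h2 : f δ = f δ₀ := (Finset.mem_filter.mp δ.2).2
      have hδ : ((δ : Z) : Gal(E/K)) ∈ (mi w).inertia Gal(E/K) := (δ : Z).2.1
      have hδ₀ : ((δ₀ : Z) : Gal(E/K)) ∈ (mi w).inertia Gal(E/K) := δ₀.2.1
      exact ⟨Subgroup.mul_mem _ (Subgroup.inv_mem _ hδ₀) hδ, tt_inv_mul hπ hδ hδ₀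
        (res_eq w (w_tt hπ hδ).le (w_tt hπ hδ₀).le h2)⟩
    · intro a b hab
      apply Subtype.ext
      apply Subtype.ext
      have := congrArg Subtype.val hab
      exact mul_left_cancel this
  have h2 : (Finset.univ.image f).card ≤ Q := by
    refine (Finset.card_le_card ?_).trans hS1
    intro b hb
    obtain ⟨δ, _, rfl⟩ := Finset.mem_image.mp hb
    apply hS2
    have hδ : (δ : Gal(E/K)) ∈ (mi w).inertia Gal(E/K) := δ.2.1
    have hc : (δ : Gal(E/K)) * σ = σ * (δ : Gal(E/K)) :=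
      Subgroup.mem_centralizer_singleton_iff.mp δ.2.2
    exact res_pow w (w_tt hπ hδ).le (tt_frob hπ hfr hδ hc)
  rw [Nat.card_eq_fintype_card, ← Finset.card_univ]
  exact h1.trans (Nat.mul_le_mul_left _ h2)

end One

/-- the number of conjugates under a subgroup -/
lemma card_le_conj_sub {G : Type*} [Group G] [Finite G] (I : Subgroup G) (x : G) {B : ℕ}
    (h : (Set.range fun g : G => g * x * g⁻¹).ncard ≤ B) :
    Nat.card I ≤ B * Nat.card (I ⊓ Subgroup.centralizer {x} : Subgroup G) := by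
  classical
  let := Fintype.ofFinite G
  let := Fintype.ofFinite I
  set f : I → G := fun g => g * x * (g : G)⁻¹ with hf
  have h1 : (Finset.univ : Finset I).card ≤
      Nat.card (I ⊓ Subgroup.centralizer {x} : Subgroup G) * (Finset.univ.image f).card := by
    refine Finset.card_le_mul_card_image _ _ fun b hb => ?_
    obtain ⟨g₀, _, rfl⟩ := Finset.mem_image.mp hb
    rw [← Fintype.card_coe, ← Nat.card_eq_fintype_card]
    refine Nat.card_le_card_of_injective
      (fun g : (Finset.univ.filter fun g => f g = f g₀) =>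
        (⟨((g₀ : I) : G)⁻¹ * ((g : I) : G), ?_⟩ :
          (I ⊓ Subgroup.centralizer {x} : Subgroup G))) ?_
    · have h2 : f g = f g₀ := (Finset.mem_filter.mp g.2).2
      refine ⟨Subgroup.mul_mem _ (Subgroup.inv_mem _ g₀.2) (g : I).2, ?_⟩
      change _ ∈ Subgroup.centralizer {x}
      rw [Subgroup.mem_centralizer_singleton_iff]
      simp only [hf] at h2
      have h3 : (g₀ : G)⁻¹ * (((g : I) : G) * x * ((g : I) : G)⁻¹) * ((g : I) : G) =
          (g₀ : G)⁻¹ * (g₀ * x * (g₀ : G)⁻¹) * ((g : I) : G) := by rw [h2]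
      calc (g₀ : G)⁻¹ * ((g : I) : G) * x =
          (g₀ : G)⁻¹ * (((g : I) : G) * x * ((g : I) : G)⁻¹) * ((g : I) : G) := by group
        _ = (g₀ : G)⁻¹ * (g₀ * x * (g₀ : G)⁻¹) * ((g : I) : G) := h3
        _ = x * ((g₀ : G)⁻¹ * ((g : I) : G)) := by group
    · intro a b hab
      apply Subtype.ext
      apply Subtype.ext
      have := congrArg Subtype.val hab
      exact mul_left_cancel this
  have h2 : (Finset.univ.image f).card ≤ B := by
    rw [Set.ncard_eq_toFinset_card'] at h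
    refine le_trans (Finset.card_le_card ?_) h
    intro y hy
    obtain ⟨g, _, rfl⟩ := Finset.mem_image.mp hy
    simp [hf]
  rw [Nat.card_eq_fintype_card, ← Finset.card_univ]
  calc _ ≤ _ := h1
    _ ≤ Nat.card (I ⊓ Subgroup.centralizer {x} : Subgroup G) * B := Nat.mul_le_mul_left _ h2
    _ = _ := mul_comm _ _

variable [IsGalois K E] {P : Ideal (𝓞 K)} [hP : P.IsMaximal]

/-- **the ramification index is bounded in terms of its `p`-part** -/
theorem ram_bound (hP0 : P ≠ ⊥) (m B a p : ℕ) (hm : 1 ≤ m) (hp : p.Prime)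
    (hpP : (p : 𝓞 K) ∈ P)
    (hconj : ∀ (σ : Gal(E/K)) (𝔓 : Ideal (𝓞 E)), 𝔓.IsPrime → 𝔓.under (𝓞 K) = P →
      (∀ z : 𝓞 E, σ • z - z ^ P.absNorm ∈ 𝔓) →
      (Set.range fun g : Gal(E/K) => g * σ ^ m * g⁻¹).ncard ≤ B)
    {𝔓 : Ideal (𝓞 E)} (h𝔓 : 𝔓.IsPrime) (h𝔓P : 𝔓.under (𝓞 K) = P)
    (ha : ¬ p ^ a ∣ 𝔓.ramificationIdx (𝓞 K)) :
    𝔓.ramificationIdx (𝓞 K) ≤ B * (p ^ a * P.absNorm ^ m) := by
  classical
  have hlo : 𝔓.LiesOver P := ⟨h𝔓P.symm⟩
  have h𝔓0 : 𝔓 ≠ ⊥ := Ideal.ne_bot_of_liesOver_of_ne_bot hP0 𝔓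
  have h𝔓m : 𝔓.IsMaximal := h𝔓.isMaximal h𝔓0
  let u : IsDedekindDomain.HeightOneSpectrum (𝓞 E) := ⟨𝔓, h𝔓, h𝔓0⟩
  obtain ⟨w, hwdef⟩ : ∃ w : FinitePlace E, w = FinitePlace.mk u := ⟨_, rfl⟩
  have hw : mi w = 𝔓 := by
    rw [hwdef]
    unfold mi
    rw [FinitePlace.maximalIdeal_mk]
  have hwT : w ∈ TP E P := by
    rw [mem_TP hP0, hw]
    exact ⟨h𝔓, hlo⟩
  rw [← hw] at ha h𝔓P ⊢
  have hloW : (mi w).LiesOver P := ⟨h𝔓P.symm⟩
  -- Frobenius
  obtain ⟨τ₀, h1, h2⟩ := H420R3.exists_frob (K := K) hP0 hwT 1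
  rw [pow_one] at h2
  have h3 : FrobAt w (τ₀ ^ m) (P.absNorm ^ m) :=
    (show FrobAt w τ₀ P.absNorm from ⟨h1, h2⟩).pow m
  have hB := hconj τ₀ (mi w) inferInstance h𝔓P h2
  -- the residue characteristic
  have hwp : w (p : E) < 1 := by
    have h4 : (algebraMap (𝓞 K) (𝓞 E) (p : 𝓞 K)) ∈ mi w := by
      have h5 : (p : 𝓞 K) ∈ (mi w).under (𝓞 K) := by
        rw [h𝔓P]
        exact hpP
      exact h5
    rw [map_natCast] at h4
    have h5 := (v_lt_one_iff w _).mpr h4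
    simpa using h5
  have hcop : ∀ n : ℕ, ¬ p ∣ n → w (n : E) = 1 := by
    intro n hn
    apply le_antisymm
    · have := H420R3.v_le_one w (n : 𝓞 E)
      simpa using this
    · by_contra hcon
      push Not at hcon
      have hcop : Nat.Coprime p n := (Nat.Prime.coprime_iff_not_dvd hp).mpr hn
      have h4 : ((p : E) * (Nat.gcdA p n : ℤ) + (n : E) * (Nat.gcdB p n : ℤ)) = 1 := by
        have h5 := Nat.gcd_eq_gcd_ab p n
        rw [Nat.Coprime.gcd_eq_one hcop] at h5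
        exact_mod_cast h5.symm
      have h5 : w (1 : E) < 1 := by
        rw [← h4]
        have hz : ∀ z : ℤ, w (z : E) ≤ 1 := fun z => by
          have := H420R3.v_le_one w (z : 𝓞 E)
          simpa using this
        refine lt_of_le_of_lt (FinitePlace.add_le w _ _) (max_lt ?_ ?_)
        · rw [map_mul]
          exact lt_of_le_of_lt (mul_le_of_le_one_right (v_nonneg w _) (hz _)) hwp
        · rw [map_mul]
          exact lt_of_le_of_lt (mul_le_of_le_one_right (v_nonneg w _) (hz _)) hcon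
      rw [map_one] at h5
      exact lt_irrefl _ h5
  -- the uniformizer
  obtain ⟨π₀, hπ1, hπ2⟩ := Ideal.exists_mem_pow_notMem_pow_succ (mi w) (H420R3.mi_ne_bot w)
    (Ideal.IsMaximal.ne_top inferInstance) 1
  rw [pow_one] at hπ1
  have hπ0 : (π₀ : E) ≠ 0 := by
    rw [RingOfIntegers.coe_ne_zero_iff]
    rintro rfl
    exact hπ2 (Submodule.zero_mem _)
  have hπ1' : w (π₀ : E) < 1 := (v_lt_one_iff w π₀).mpr hπ1
  have hπ2' : ¬ w (π₀ : E) ≤ (nv w ^ 2)⁻¹ := fun h => hπ2 ((H420R3.v_le_iff w π₀ 2).mp h)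
  -- the wild part
  set Kw := Kr (K := K) w hπ0 with hKw
  have hcard : Nat.card Kw = p ^ (Nat.card Kw).primeFactorsList.length :=
    Nat.eq_prime_pow_of_unique_prime_dvd Nat.card_pos.ne' fun {l} hl hdvd =>
      prime_dvd_Kr hπ0 hπ1' hπ2' hcop hp hl hdvd
  have hI : Nat.card ((mi w).inertia Gal(E/K)) = (mi w).ramificationIdx (𝓞 K) := by
    rw [Ideal.card_inertia_eq_ramificationIdxIn (G := Gal(E/K)) P (mi w)]
    exact Ideal.ramificationIdxIn_eq_ramificationIdx P (mi w) Gal(E/K)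
  have hdvd : Nat.card Kw ∣ (mi w).ramificationIdx (𝓞 K) := by
    rw [← hI]
    exact Subgroup.card_dvd_of_le (Kr_le hπ0)
  have hKle : Nat.card Kw ≤ p ^ a := by
    rw [hcard]
    apply Nat.pow_le_pow_right hp.pos
    by_contra hlt
    push Not at hlt
    apply ha
    refine dvd_trans ?_ hdvd
    rw [hcard]
    exact pow_dvd_pow p hlt.le
  have hQ : 1 < P.absNorm ^ m := by
    have hPn : 2 ≤ P.absNorm := by
      have h1 := log_absNorm_pos (K := K) hP0
      by_contra h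
      push Not at h
      interval_cases hh : P.absNorm <;> simp at h1
    exact lt_of_lt_of_le (by omega) (Nat.le_self_pow (by omega) P.absNorm)
  rw [← hI]
  calc Nat.card ((mi w).inertia Gal(E/K)) ≤ B * Nat.card ((mi w).inertia Gal(E/K) ⊓
        Subgroup.centralizer {τ₀ ^ m} : Subgroup Gal(E/K)) := card_le_conj_sub _ _ hB
    _ ≤ B * (Nat.card Kw * P.absNorm ^ m) := Nat.mul_le_mul_left _ (card_comm hπ0 hQ h3)
    _ ≤ B * (p ^ a * P.absNorm ^ m) :=
        Nat.mul_le_mul_left _ (Nat.mul_le_mul_right _ hKle)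

end

end Pool.Agent.R829.BH
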