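import Mathlib
import Pool.Agent.R829.BH.Tame
import Pool.Agent.H627.LU.Fn

/-!
The lower bound for points of bounded degree over Galois extensions.
-/

set_option autoImplicit false
set_option linter.unusedSectionVars false

namespace Pool.Agent.R829.BH

open NumberField Module Filter Topology
open Pool.Agent.W238.Leh
open Pool.Agent.H627.LP hiding det_ineq det_ineq' local_gain
open Pool.Agent.H627.LR (GR GoodRed GoodK transfer_scale)
open Pool.Agent.H420R3 (mi nv TP ew lP lP_pos sum_ew ew_pos log_nv_pos NC)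

noncomputable section

variable {K : Type} [Field K] [NumberField K]

/-- **the theorem** -/
theorem relative {d : ℕ} (hd : 2 ≤ d) (F : Fin (1 + 1) → MvPolynomial (Fin (1 + 1)) K)
    (hF : ∀ i, (F i).IsHomogeneous d) (v : FinitePlace K) (hred : GoodRed v F)
    {m : ℕ} (hm : 1 ≤ m) (B D e : ℕ) :
    ∃ κ : ℝ, 0 < κ ∧ ∀ (E L : Type) [Field E] [NumberField E] [Field L] [NumberField L]
      [Algebra K E] [Algebra K L] [Algebra E L] [IsScalarTower K E L] [IsGalois K E],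
      (∀ (σ : Gal(E/K)) (𝔓 : Ideal (𝓞 E)), 𝔓.IsPrime → 𝔓.under (𝓞 K) = mi v →
        (∀ z : 𝓞 E, σ • z - z ^ (mi v).absNorm ∈ 𝔓) →
        (Set.range fun g : Gal(E/K) => g * σ ^ m * g⁻¹).ncard ≤ B) →
      (∀ 𝔓 : Ideal (𝓞 E), 𝔓.IsPrime → 𝔓.under (𝓞 K) = mi v → 𝔓.ramificationIdx (𝓞 K) ≤ e) →
      finrank E L ≤ D →
      ∀ x : Fin (1 + 1) → L, x ≠ 0 → Wnd F x →
      ∃ h : ℝ, Tendsto (fun n : ℕ => Height.logHeight ((act F)^[n] x) /
          ((finrank ℚ L : ℝ) * (d : ℝ) ^ n)) atTop (𝓝 h) ∧ κ ≤ h := by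
  obtain ⟨b, hb, hG⟩ := hred.exists_model hF
  have hP0 := H420R3.mi_ne_bot v
  set H : Fin (1 + 1) → MvPolynomial (Fin (1 + 1)) K := fun i => MvPolynomial.C (b : K) * F i
    with hH
  have hmor := fun z => hG.mor z
  have hint : ∀ i s, IsIntegral ℤ ((H i).coeff s) := fun i s => by
    obtain ⟨c, hc⟩ := hG.int i s
    rw [hc]
    exact RingOfIntegers.isIntegral_coe c
  obtain ⟨A, a, hBd, C₁, hC₁, hconcl⟩ := final_int (ε := 1) (by omega) hG.hom hint hmor one_pos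
  obtain ⟨c, hc⟩ := exists_mem_span hmor
  have hPn : 2 ≤ (mi v).absNorm := by
    have h1 := log_absNorm_pos (K := K) hP0
    by_contra h
    push Not at h
    interval_cases hh : (mi v).absNorm <;> simp at h1
  have hlP := log_absNorm_pos (K := K) hP0
  have hKpos := finrank_pos' (L := K)
  obtain ⟨e', he'⟩ : ∃ e', e' = max e 1 := ⟨_, rfl⟩
  obtain ⟨B', hB'⟩ : ∃ B', B' = max B 1 := ⟨_, rfl⟩
  obtain ⟨D', hD'⟩ : ∃ D', D' = max D 1 := ⟨_, rfl⟩
  have he1 : 1 ≤ e' := he' ▸ le_max_right _ _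
  have hB1 : 1 ≤ B' := hB' ▸ le_max_right _ _
  have hD1 : 1 ≤ D' := hD' ▸ le_max_right _ _
  have he0 : (0 : ℝ) < e' := by exact_mod_cast he1
  have hB0 : (0 : ℝ) < B' := by exact_mod_cast hB1
  have hD0 : (0 : ℝ) < D' := by exact_mod_cast hD1
  obtain ⟨ω, hω⟩ : ∃ ω : ℝ, ω = Real.log (mi v).absNorm /
    ((B' * D') * (e' * D') * finrank ℚ K) := ⟨_, rfl⟩
  have hω0 : 0 < ω := by
    rw [hω]
    positivity
  have hN₀ : 2 ≤ (mi v).absNorm ^ m := hPn.trans (Nat.le_self_pow (by omega) _)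
  obtain ⟨j, κ, hκ, hcore⟩ := core (c := c) hBd hd hG.hom
    (fun m hm p hp => hc m (by omega) p hp) hN₀ hω0
  refine ⟨κ, hκ, ?_⟩
  intro E L _ _ _ _ _ _ _ _ _ hconj hram hDeg x hx hw
  obtain ⟨hw', hlim⟩ := transfer_scale hb hF hd hBd hx
  refine ⟨_, hlim, ?_⟩
  let _ : Algebra E (NC K L) := ((algebraMap L (NC K L)).comp (algebraMap E L)).toAlgebra
  have htow : IsScalarTower E L (NC K L) := IsScalarTower.of_algebraMap_eq fun z => rfl
  have htow' : IsScalarTower K E (NC K L) := IsScalarTower.of_algebraMap_eq fun z => by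
    change algebraMap K (NC K L) z = algebraMap L (NC K L) (algebraMap E L (algebraMap K E z))
    rw [← IsScalarTower.algebraMap_apply K E L, ← IsScalarTower.algebraMap_apply K L (NC K L)]
  obtain ⟨θ, T, hTP, hfr, hsum⟩ := exists_data (M := NC K L) (E := E) (L := L) hP0 m B' j D' e'
    (fun σ 𝔓 h1 h2 h3 => (hconj σ 𝔓 h1 h2 h3).trans (hB' ▸ le_max_left _ _)) (hDeg.trans (hD' ▸ le_max_left _ _)) he1
    (fun 𝔓 h1 h2 => (hram 𝔓 h1 h2).trans (he' ▸ le_max_left _ _))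
  have hpos : 0 < canH H d x := lt_of_lt_of_le (Real.exp_pos _) ((hconcl L).2 x hx (hw' hw))
  have hep : (0 : ℝ) < ((e' * D' : ℕ) : ℝ) := by
    push_cast
    positivity
  refine hcore L (NC K L) (IsScalarTower.toAlgHom K L (NC K L)) θ T
    (fun w => ew K w * (1 / ((e' * D' : ℕ) : ℝ))) (fun w hw => hG.gr hP0 (by omega) (hTP hw))
    (fun w _ => mul_pos (ew_pos w) (by positivity)) hfr ?_ x hx (hw' hw) hpos
  -- the weights
  rw [sum_ew hP0] at hsum
  rw [← Finset.sum_mul, mul_one_div, le_div_iff₀ hep]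
  have h4 : (finrank ℚ (NC K L) : ℝ) = finrank ℚ K * finrank K (NC K L) := by
    exact_mod_cast (finrank_mul_finrank ℚ K (NC K L)).symm
  have h5 : (finrank ℚ (NC K L) : ℝ) * ω * ((e' * D' : ℕ) : ℝ) =
      (finrank K (NC K L) * Real.log (mi v).absNorm) / ((B' * D' : ℕ) : ℝ) := by
    rw [h4, hω]
    push_cast
    field_simp
  rw [h5, div_le_iff₀ (by push_cast; positivity), mul_comm (∑ w ∈ T, ew K w)]
  exact hsum

/-- **the theorem**, with a bound for the wild ramification only -/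
theorem relative_wild {d : ℕ} (hd : 2 ≤ d) (F : Fin (1 + 1) → MvPolynomial (Fin (1 + 1)) K)
    (hF : ∀ i, (F i).IsHomogeneous d) (v : FinitePlace K) (hred : GoodRed v F)
    {p : ℕ} (hp : p.Prime) (hpv : v (p : K) < 1)
    {m : ℕ} (hm : 1 ≤ m) (B D a : ℕ) :
    ∃ κ : ℝ, 0 < κ ∧ ∀ (E L : Type) [Field E] [NumberField E] [Field L] [NumberField L]
      [Algebra K E] [Algebra K L] [Algebra E L] [IsScalarTower K E L] [IsGalois K E],
      (∀ (σ : Gal(E/K)) (𝔓 : Ideal (𝓞 E)), 𝔓.IsPrime → 𝔓.under (𝓞 K) = mi v →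
        (∀ z : 𝓞 E, σ • z - z ^ (mi v).absNorm ∈ 𝔓) →
        (Set.range fun g : Gal(E/K) => g * σ ^ m * g⁻¹).ncard ≤ B) →
      (∀ 𝔓 : Ideal (𝓞 E), 𝔓.IsPrime → 𝔓.under (𝓞 K) = mi v →
        ¬ p ^ a ∣ 𝔓.ramificationIdx (𝓞 K)) →
      finrank E L ≤ D →
      ∀ x : Fin (1 + 1) → L, x ≠ 0 → Wnd F x →
      ∃ h : ℝ, Tendsto (fun n : ℕ => Height.logHeight ((act F)^[n] x) /
          ((finrank ℚ L : ℝ) * (d : ℝ) ^ n)) atTop (𝓝 h) ∧ κ ≤ h := by
  have hP0 := H420R3.mi_ne_bot v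
  have hpP : (p : 𝓞 K) ∈ mi v := by
    rw [← H420R3.v_lt_one_iff]
    simpa using hpv
  obtain ⟨κ, hκ, h⟩ := relative hd F hF v hred hm B D (B * (p ^ a * (mi v).absNorm ^ m))
  exact ⟨κ, hκ, fun E L _ _ _ _ _ _ _ _ _ hconj hram hD x hx hw =>
    h E L hconj (fun 𝔓 h1 h2 => ram_bound hP0 m B a p hm hp hpP hconj h1 h2 (hram 𝔓 h1 h2))
      hD x hx hw⟩

end

end Pool.Agent.R829.BH
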